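import Pool.Agent.H88.AS.CUp2

/-!
helper88 (project MP_28250c_AS / CQ): the upper bound `StUpC`.
-/

set_option autoImplicit false
set_option linter.unusedSectionVars false

namespace ACpSep

open ACpFrege ACpB

/-- The blocks which contain a point. -/
noncomputable def EE (q N i : ℕ) : List (Finset ℕ) := (blk q N).filter fun e => i ∈ e

theorem EE_nodup (q N i : ℕ) : (EE q N i).Nodup := (Finset.nodup_toList _).filter _

theorem EE_len (q N i : ℕ) : (EE q N i).length ≤ (blk q N).length := List.length_filter_le _ _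

theorem blk_len (q N : ℕ) : (blk q N).length ≤ N ^ q := by
  unfold blk
  rw [Finset.length_toList, Finset.card_powersetCard, Finset.card_range]
  exact Nat.choose_le_pow N q

theorem mem_blk {q N : ℕ} {e : Finset ℕ} : e ∈ blk q N ↔ e ⊆ Finset.range N ∧ e.card = q := by
  unfold blk
  rw [Finset.mem_toList, Finset.mem_powersetCard]

theorem EE_count (q N i : ℕ) (e : Finset ℕ) (he : e ∈ blk q N) : (EE q N i).count e = if i ∈ e then 1 else 0 := by
  split_ifs with h
  · exact List.count_eq_one_of_mem (EE_nodup q N i) (List.mem_filter.2 ⟨he, by simpa using h⟩)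
  · refine List.count_eq_zero.2 fun h' => h ?_
    simpa using (List.mem_filter.1 h').2

theorem count_flat (q N : ℕ) (e : Finset ℕ) (he : e ∈ blk q N) :
    ((List.range N).flatMap (EE q N)).count e = q := by
  rw [List.count_flatMap]
  have h1 : (List.map (List.count e ∘ EE q N) (List.range N)) = (List.range N).map fun i => if i ∈ e then 1 else 0 :=
    List.map_congr_left fun i _ => EE_count q N i e he
  rw [h1]
  obtain ⟨h2, h3⟩ := mem_blk.1 he
  have h4 : ((List.range N).map fun i => if i ∈ e then 1 else 0).sum = ∑ i ∈ Finset.range N, if i ∈ e then 1 else 0 := by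
    rw [Finset.sum_range, ← List.sum_ofFn, List.ofFn_eq_map, ← List.map_coe_finRange_eq_range, List.map_map]
    rfl
  rw [h4, Finset.sum_ite_mem, Finset.inter_eq_right.2 h2, Finset.sum_const, h3]
  simp

theorem flat_mem {q N : ℕ} {e : Finset ℕ} (he : e ∈ (List.range N).flatMap (EE q N)) : e ∈ blk q N := by
  rw [List.mem_flatMap] at he
  obtain ⟨i, _, hi⟩ := he
  exact (List.mem_filter.1 hi).1

theorem point_mem (q N i : ℕ) (hi : i < N) : ((EE q N i).map fun e => (zvar e, true)) ∈ CountCNF q N := by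
  unfold CountCNF
  exact List.mem_append_left _ (List.mem_map.2 ⟨i, List.mem_range.2 hi, rfl⟩)

theorem pair_mem (q N i : ℕ) (e f : Finset ℕ) (he : e ∈ EE q N i) (hf : f ∈ EE q N i) (hne : e ≠ f) :
    [(zvar e, false), (zvar f, false)] ∈ CountCNF q N := by
  unfold CountCNF
  have h1 := List.mem_filter.1 he
  have h2 := List.mem_filter.1 hf
  refine List.mem_append_right _ (List.mem_flatMap.2 ⟨e, h1.1, List.mem_map.2 ⟨f, List.mem_filter.2 ⟨h2.1, ?_⟩, rfl⟩⟩)
  have h3 : i ∈ e := by simpa using h1.2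
  have h4 : i ∈ f := by simpa using h2.2
  have h5 : ¬ Disjoint e f := fun h => Finset.disjoint_left.1 h h3 h4
  simpa using ⟨hne, h5⟩

theorem clause_len (q N : ℕ) : ∀ C ∈ CountCNF q N, C.length ≤ (blk q N).length + 2 := by
  intro C hC
  unfold CountCNF at hC
  rw [List.mem_append] at hC
  rcases hC with hC | hC
  · rw [List.mem_map] at hC
    obtain ⟨i, _, rfl⟩ := hC
    rw [List.length_map]
    have := EE_len q N i
    unfold EE at this
    omega
  · rw [List.mem_flatMap] at hC
    obtain ⟨e, _, hC⟩ := hC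
    rw [List.mem_map] at hC
    obtain ⟨f, _, rfl⟩ := hC
    simp

theorem cnf_len (q N : ℕ) : (CountCNF q N).length ≤ N + (blk q N).length * (blk q N).length := by
  unfold CountCNF
  rw [List.length_append, List.length_map, List.length_range]
  refine Nat.add_le_add_left (flatMap_len _ _ _ fun e _ => ?_) N
  rw [List.length_map]
  exact List.length_filter_le _ _

theorem fin_bound (N nb X : ℕ) (hN : N ≤ X) (hb : nb ≤ X) (hX : 4 ≤ X) :
    (N + nb * nb + 1 + N * (nb * (nb + 1) + nb + 3) + N * nb + 1) * (10 + 4 * (N + 1) * (nb + 1)) ≤ X ^ 8 := by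
  have e2 : 4 * X ≤ X ^ 2 := by nlinarith
  have e3 : 4 * X ^ 2 ≤ X ^ 3 := by nlinarith
  have e4 : 4 * X ^ 3 ≤ X ^ 4 := by
    have : X ^ 4 = X ^ 3 * X := by ring
    rw [this, Nat.mul_comm]
    exact Nat.mul_le_mul_left _ hX
  have h1 : N + nb * nb + 1 + N * (nb * (nb + 1) + nb + 3) + N * nb + 1 ≤ X ^ 4 := by
    have h : N + nb * nb + 1 + N * (nb * (nb + 1) + nb + 3) + N * nb + 1 ≤
        X + X * X + 1 + X * (X * (X + 1) + X + 3) + X * X + 1 := by gcongr
    have h' : X + X * X + 1 + X * (X * (X + 1) + X + 3) + X * X + 1 = X ^ 3 + 4 * X ^ 2 + 4 * X + 2 := by ring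
    omega
  have h2 : 10 + 4 * (N + 1) * (nb + 1) ≤ X ^ 4 := by
    have h : 10 + 4 * (N + 1) * (nb + 1) ≤ 10 + 4 * (X + 1) * (X + 1) := by gcongr
    have h' : 10 + 4 * (X + 1) * (X + 1) = 4 * X ^ 2 + 8 * X + 14 := by ring
    omega
  calc _ ≤ X ^ 4 * X ^ 4 := Nat.mul_le_mul h1 h2
    _ = X ^ 8 := by ring

theorem stUpC : StUpC := by
  intro q hq
  refine ⟨8 * q, ?_⟩
  intro N hN
  haveI : NeZero q := ⟨by omega⟩
  set nb := (blk q N).length with hnb
  set B := 10 + 4 * (N + 1) * (nb + 1) with hB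
  have hBB : B = 10 + 4 * (N * nb) + 4 * N + 4 * nb + 4 := by rw [hB]; ring
  have h0 : Dv (SysC q) (CountCNF q N) 2 B (CountCNF q N).length {A | ∃ C ∈ CountCNF q N, A = clauseFm C} := by
    refine dv_clauses le_rfl fun C hC => ?_
    have := clause_len q N C hC
    omega
  have h1 := dv_total (T := {A | ∃ C ∈ CountCNF q N, A = clauseFm C}) (EE q N) nb N (fun i _ => EE_len q N i) (fun i _ => EE_nodup q N i)
    (fun i _ e he f hf hne => ⟨_, pair_mem q N i e f he hf hne, rfl⟩) (fun i hi => ⟨_, point_mem q N i hi, rfl⟩) (by omega)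
    (by omega) h0 N le_rfl
  have hlen : ((List.range N).flatMap (EE q N)).length ≤ N * nb := by
    refine (flatMap_len _ _ nb fun i _ => EE_len q N i).trans ?_
    rw [List.length_range]
  have h2 := dv_rem (N : ZMod q) (N * nb) _ hlen (by omega) (fun e he => count_flat q N e (flat_mem he)) _ h1
  have hr : (N : ZMod q) ≠ 0 := by
    intro h
    exact hN ((ZMod.natCast_eq_zero_iff N q).1 h)
  have h3 := h2.step (sc_bot (N : ZMod q) hr (Set.mem_insert _ _)) (by
    unfold Fm.depth cnL
    rw [Fm.dep]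
    simp) (by
    rw [size_cnL, List.map_nil, List.sum_nil]
    omega)
  obtain ⟨π, h4, h5⟩ := h3.refutes (Set.mem_insert _ _)
  refine ⟨π, h4, h5.trans ?_⟩
  have hX : 4 ≤ (N + 2) ^ q := by
    calc 4 = 2 ^ 2 := by norm_num
      _ ≤ 2 ^ q := Nat.pow_le_pow_right (by norm_num) hq
      _ ≤ (N + 2) ^ q := Nat.pow_le_pow_left (by omega) q
  have hNX : N ≤ (N + 2) ^ q := by
    calc N ≤ N + 2 := by omega
      _ = (N + 2) ^ 1 := (pow_one _).symm
      _ ≤ (N + 2) ^ q := Nat.pow_le_pow_right (by omega) (by omega)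
  have hbX : nb ≤ (N + 2) ^ q := (blk_len q N).trans (Nat.pow_le_pow_left (by omega) q)
  have h6 := cnf_len q N
  calc _ ≤ (N + nb * nb + 1 + N * (nb * (nb + 1) + nb + 3) + N * nb + 1) * B := by
        refine Nat.mul_le_mul_right _ ?_
        rw [← hnb] at h6
        omega
    _ ≤ ((N + 2) ^ q) ^ 8 := fin_bound N nb _ hNX hbX hX
    _ = (N + 2) ^ (8 * q) := by rw [← pow_mul, Nat.mul_comm]

end ACpSep
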