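import Pool.Agent.H88.AS.Inst
import Pool.Agent.H16.CQ.Defs

/-!
helper88 (project MP_28250c_AS / CQ): a Frege system with `MOD_q` connectives with polynomial size refutations of `Count_q^N`:
the rules and the statement.
-/

set_option autoImplicit false

namespace ACpSep

open ACpFrege ACpB

/-- The disjunction of a list of schemes. -/
def orS {q : ℕ} (l : List (Sch q)) : Sch q := .cn true l.length l.get

/-- From nothing infer `¬A ∨ MOD_0()`. -/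
def cAx (q : ℕ) : Rule q := ⟨[], orS [.neg (.mv 0), mdS 0 []]⟩

/-- From `¬A ∨ MOD_r(Γ)` and `¬A ∨ ¬B` infer `¬A ∨ MOD_r(Γ, B)`. -/
def cSt (q : ℕ) (r : ZMod q) : Rule q :=
  ⟨[orS [.neg (.mv 0), mdS r [.sq 0]], orS [.neg (.mv 0), .neg (.mv 1)]], orS [.neg (.mv 0), mdS r [.sq 0, .mv 1]]⟩

/-- From `¬A ∨ MOD_0(Γ)` infer `¬A ∨ MOD_1(Γ, A)`. -/
def cTurn (q : ℕ) : Rule q := ⟨[orS [.neg (.mv 0), mdS 0 [.sq 0]]], orS [.neg (.mv 0), mdS 1 [.sq 0, .mv 0]]⟩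

/-- Weakening. -/
def cWk (q : ℕ) : Rule q := ⟨[orS [.sq 0]], orS [.sq 0, .mv 0]⟩

/-- From `Γ ∨ A ∨ B` and `¬A ∨ B` infer `Γ ∨ B`. -/
def cRes (q : ℕ) : Rule q := ⟨[orS [.sq 0, .mv 0, .mv 1], orS [.neg (.mv 0), .mv 1]], orS [.sq 0, .mv 1]⟩

/-- From the disjunction of the single formula `A` infer `A`. -/
def cOne (q : ℕ) : Rule q := ⟨[orS [.mv 0]], .mv 0⟩

/-- `MOD_0()`. -/
def cEmp (q : ℕ) : Rule q := ⟨[], mdS 0 []⟩

/-- From `MOD_r(A, Γ_0, A, Γ_1, ..)` with `q` copies of `A` infer `MOD_r(Γ_0, Γ_1, ..)`. -/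
def cRem (q : ℕ) (r : ZMod q) : Rule q :=
  ⟨[mdS r ((List.range q).flatMap fun j => [.mv 0, .sq j])], mdS r ((List.range q).map fun j => .sq j)⟩

/-- From `MOD_r()` with `r ≠ 0` infer false. -/
def cBot (q : ℕ) (r : ZMod q) : Rule q := ⟨[mdS r []], .cn true 0 fun i => i.elim0⟩

/-- The system. -/
def SysC (q : ℕ) : List (Rule q) :=
  [cAx q, cSt q 0, cSt q 1, cTurn q, cWk q, cRes q, cOne q, cEmp q] ++
    (vals q).map (fun r => rSum q r 1) ++ (vals q).map (cRem q) ++ ((vals q).filter fun r => r.val ≠ 0).map (cBot q)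

/-- Soundness. -/
def StSoundC : Prop := ∀ q : ℕ, 2 ≤ q → ∀ R ∈ SysC q, R.Sound

/-- `Count_q^N` has polynomial size refutations with lines of depth at most 2 in a fixed finite sound Frege system with `MOD_q`
connectives. -/
def StUpC : Prop := ∀ q : ℕ, 2 ≤ q → ∃ c : ℕ, ∀ N : ℕ, ¬ q ∣ N →
  ∃ π : List (Fm q), Refutes (SysC q) 2 (CountCNF q N) π ∧ psize π ≤ (N + 2) ^ c

end ACpSep
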