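import Pool.Agent.H88.AS.CDefs

/-!
helper88 (project MP_28250c_AS / CQ): soundness of `SysC`.
-/

set_option autoImplicit false

namespace ACpSep

open ACpFrege ACpB

variable {q : ℕ}

theorem ev_orS (v : ℕ → Bool) (w : ℕ → List Bool) (l : List (Sch q)) :
    (orS l).ev v w = [(l.flatMap (Sch.ev v w)).any id] := by
  unfold orS
  rw [Sch.ev, List.flatMap_def]
  congr 3
  exact ofFn_get_map l (Sch.ev v w)

theorem ev_mdS (v : ℕ → Bool) (w : ℕ → List Bool) (r : ZMod q) (l : List (Sch q)) :
    (mdS r l).ev v w = [decide ((((l.flatMap (Sch.ev v w)).count true : ℕ) : ZMod q) = r)] := by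
  unfold mdS
  rw [Sch.ev, List.flatMap_def, ofFn_get_map l (Sch.ev v w)]

theorem ev_bot (v : ℕ → Bool) (w : ℕ → List Bool) : (Sch.cn true 0 (fun i => i.elim0) : Sch q).ev v w = [false] := by
  rw [Sch.ev]
  simp

theorem sum_sound (r s : ZMod q) : (rSum q r s).Sound := by
  intro v w h b hb
  simp only [rSum, List.mem_cons, List.not_mem_nil, or_false, forall_eq_or_imp, forall_eq, ev_mdS, List.flatMap_cons,
    List.flatMap_nil, Sch.ev, List.append_nil, decide_eq_true_eq, List.count_append, Nat.cast_add] at h hb ⊢
  obtain ⟨h1, h2⟩ := h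
  rw [hb, h1, h2]
  simp

theorem soundC : StSoundC := by
  intro q hq R hR
  unfold SysC at hR
  simp only [List.mem_append, List.mem_cons, List.not_mem_nil, or_false, List.mem_map, List.mem_filter] at hR
  have hev : ∀ (v : ℕ → Bool) (w : ℕ → List Bool) (S : Sch q), ∀ b ∈ S.ev v w, b = true ∨ b = false := by
    intro v w S b _
    cases b <;> simp
  rcases hR with ((hR | ⟨r, _, rfl⟩) | ⟨r, _, rfl⟩) | ⟨r, ⟨_, hr⟩, rfl⟩
  · rcases hR with rfl | rfl | rfl | rfl | rfl | rfl | rfl | rfl
    · intro v w _ b hb
      simp only [cAx, ev_orS, List.flatMap_cons, List.flatMap_nil, ev_mdS, Sch.ev, List.mem_cons, List.not_mem_nil, or_false] at hb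
      rw [hb]
      simp
    · intro v w h b hb
      simp only [cSt, List.mem_cons, List.not_mem_nil, or_false, forall_eq_or_imp, forall_eq, ev_orS, ev_mdS, List.flatMap_cons,
        List.flatMap_nil, Sch.ev, List.append_nil] at h hb
      rw [hb]
      cases h0 : v 0 <;> cases h1 : v 1 <;> simp_all
    · intro v w h b hb
      simp only [cSt, List.mem_cons, List.not_mem_nil, or_false, forall_eq_or_imp, forall_eq, ev_orS, ev_mdS, List.flatMap_cons,
        List.flatMap_nil, Sch.ev, List.append_nil] at h hb
      rw [hb]
      cases h0 : v 0 <;> cases h1 : v 1 <;> simp_all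
    · intro v w h b hb
      simp only [cTurn, List.mem_cons, List.not_mem_nil, or_false, forall_eq, ev_orS, ev_mdS, List.flatMap_cons,
        List.flatMap_nil, Sch.ev, List.append_nil] at h hb
      rw [hb]
      cases h0 : v 0 <;> simp_all
    · intro v w h b hb
      simp only [cWk, List.mem_cons, List.not_mem_nil, or_false, forall_eq, ev_orS, List.flatMap_cons,
        List.flatMap_nil, Sch.ev, List.append_nil] at h hb
      rw [hb]
      simp_all
    · intro v w h b hb
      simp only [cRes, List.mem_cons, List.not_mem_nil, or_false, forall_eq_or_imp, forall_eq, ev_orS, List.flatMap_cons,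
        List.flatMap_nil, Sch.ev, List.append_nil] at h hb
      rw [hb]
      cases h0 : v 0 <;> cases h1 : v 1 <;> simp_all
    · intro v w h b hb
      simp only [cOne, List.mem_cons, List.not_mem_nil, or_false, forall_eq, ev_orS, List.flatMap_cons,
        List.flatMap_nil, Sch.ev, List.append_nil] at h hb
      rw [hb]
      simpa using h
    · intro v w _ b hb
      simp only [cEmp, ev_mdS, List.flatMap_nil, List.mem_cons, List.not_mem_nil, or_false] at hb
      rw [hb]
      simp
  · exact sum_sound r 1
  · intro v w h b hb
    simp only [cRem, List.mem_cons, List.not_mem_nil, or_false, forall_eq, ev_mdS, decide_eq_true_eq] at h hb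
    rw [hb, decide_eq_true_eq, ← h]
    have h1 : ∀ l : List ℕ, ((((l.map fun j => (Sch.sq j : Sch q)).flatMap (Sch.ev v w)).count true : ℕ) : ZMod q) +
        (l.length : ZMod q) * (if v 0 then 1 else 0) =
        ((((l.flatMap fun j => [(Sch.mv 0 : Sch q), Sch.sq j]).flatMap (Sch.ev v w)).count true : ℕ) : ZMod q) := by
      intro l
      induction l with
      | nil => simp
      | cons a l ih =>
        rw [List.map_cons, List.flatMap_cons, List.flatMap_cons, List.flatMap_append, List.count_append, List.count_append,
          Nat.cast_add, Nat.cast_add, ← ih, List.flatMap_cons, List.flatMap_cons, List.flatMap_nil, List.append_nil,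
          List.count_append, Sch.ev, Sch.ev, List.length_cons]
        cases h0 : v 0 <;> simp <;> ring
    rw [← h1, List.length_range]
    simp
  · intro v w h b hb
    exfalso
    simp only [cBot, List.mem_cons, List.not_mem_nil, or_false, forall_eq, ev_mdS, List.flatMap_nil, List.count_nil,
      Nat.cast_zero, decide_eq_true_eq] at h
    rw [← h] at hr
    simp at hr

end ACpSep
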