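import Pool.Agent.H88.AS.Up

/-!
helper88 (project MP_28250c_AS): the upper bound `StUp`.
-/

set_option autoImplicit false
set_option linter.unusedSectionVars false

namespace ACpSep

open ACpFrege ACpB

variable {M q : ℕ}

theorem flatMap_len {α β : Type} (l : List α) (f : α → List β) (c : ℕ) (h : ∀ a ∈ l, (f a).length ≤ c) :
    (l.flatMap f).length ≤ l.length * c := by
  induction l with
  | nil => simp
  | cons a l ih =>
    rw [List.flatMap_cons, List.length_append, List.length_cons]
    have h1 := h a List.mem_cons_self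
    have h2 := ih fun b hb => h b (List.mem_cons_of_mem _ hb)
    calc (f a).length + (l.flatMap f).length ≤ c + l.length * c := Nat.add_le_add h1 h2
      _ = (l.length + 1) * c := by ring

theorem flatMap_var {α : Type} (l : List α) (f : α → List (Fm q)) (h : ∀ a ∈ l, ∀ A ∈ f a, ∃ x, A = .var x) :
    ∀ A ∈ l.flatMap f, ∃ x, A = .var x := by
  intro A hA
  rw [List.mem_flatMap] at hA
  obtain ⟨a, ha, hA⟩ := hA
  exact h a ha A hA

/-- The bound for the sizes of the lines. -/
def BB (M q Q : ℕ) : ℕ := 1 + 2 * Q * q ^ 2 * M ^ 2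

/-- A line: a sum of variables of bounded length. -/
theorem line_ok {Q : ℕ} (r : ZMod q) (l : List (Fm q)) (hv : ∀ A ∈ l, ∃ x, A = .var x) (hl : l.length ≤ 2 * Q * q ^ 2 * M ^ 2) :
    (mdL r l).depth ≤ 2 ∧ (mdL r l).size ≤ BB M q Q := by
  refine ⟨(dep_mdL r l hv).trans (by omega), ?_⟩
  rw [size_mdL, size_vars l hv]
  unfold BB
  omega

theorem XL_var {Q : ℕ} (v : Fin M) (t : ℕ) : ∀ A ∈ XL q Q v t, ∃ x, A = .var x :=
  flatMap_var _ _ fun _ _ => DV_var _ _ _

theorem XL_len {Q : ℕ} (hq : 0 < q) (v : Fin M) (t : ℕ) : (XL q Q v t).length ≤ M * (Q * q) := by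
  unfold XL
  refine (flatMap_len _ _ (Q * q) fun u _ => ?_).trans ?_
  · have := DV_length (q := q) hq 1 Q (.inl (v, u) : Vr M)
    rwa [one_mul] at this
  · refine Nat.mul_le_mul_right _ ?_
    rw [List.length_take, List.length_finRange]
    exact min_le_right _ _

variable {Q : ℕ} [NeZero Q]

/-- Deriving a row. -/
theorem dv_row (hq : 0 < q) (hM : 1 ≤ M) (hQ : Q = QQ q) (v : Fin M) {k : ℕ} {T : Set (Fm q)} (hT : T0 q M Q ⊆ T)
    (h : Dv (SysQ q) (ASM M Q) 2 (BB M q Q) k T) :
    Dv (SysQ q) (ASM M Q) 2 (BB M q Q) (k + (M + 2)) (insert (Rw q Q v) T) := by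
  have hMM : M ≤ M ^ 2 := by nlinarith
  have hlen : ∀ t : Fin (M + 1), (XL q Q v t.val ++ DV (q - 1) Q (.inr (v, t) : Vr M)).length ≤ 2 * Q * q ^ 2 * M ^ 2 := by
    intro t
    rw [List.length_append]
    have h1 := XL_len (q := q) (Q := Q) hq v t.val
    have h2 := DV_length (q := q) hq (q - 1) Q (.inr (v, t) : Vr M)
    have h3 : M * (Q * q) ≤ Q * q ^ 2 * M ^ 2 := by
      calc M * (Q * q) = Q * q * M := by ring
        _ ≤ Q * q ^ 2 * M ^ 2 := by
          refine Nat.mul_le_mul (Nat.mul_le_mul_left Q ?_) hMM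
          nlinarith
    have h4 : Q * ((q - 1) * q) ≤ Q * q ^ 2 * M ^ 2 := by
      calc Q * ((q - 1) * q) ≤ Q * (q * q) := Nat.mul_le_mul_left Q (Nat.mul_le_mul_right q (Nat.sub_le q 1))
        _ = Q * q ^ 2 * 1 := by ring
        _ ≤ Q * q ^ 2 * M ^ 2 := Nat.mul_le_mul_left _ (Nat.one_le_pow _ _ hM)
    calc _ ≤ Q * q ^ 2 * M ^ 2 + Q * q ^ 2 * M ^ 2 := Nat.add_le_add (h1.trans h3) (h2.trans h4)
      _ = _ := by ring
  have hok : ∀ t : Fin (M + 1), (Pl q Q v t).depth ≤ 2 ∧ (Pl q Q v t).size ≤ BB M q Q := by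
    intro t
    refine line_ok 0 _ ?_ (hlen t)
    intro A hA
    rcases List.mem_append.1 hA with h' | h'
    · exact XL_var v t.val A h'
    · exact DV_var _ _ _ A h'
  have hind : ∀ t : ℕ, ∀ ht : t < M + 1, Dv (SysQ q) (ASM M Q) 2 (BB M q Q) (k + 1 + t) (insert (Pl q Q v ⟨t, ht⟩) T) := by
    intro t
    induction t with
    | zero =>
      intro ht
      exact h.step (st_start hQ hT v) (hok 0).1 (hok 0).2
    | succ t ih =>
      intro ht
      have h1 := ih (by omega)
      have htM : t < M := by omega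
      have hT' : T0 q M Q ⊆ insert (Pl q Q v ⟨t, by omega⟩) T := hT.trans (Set.subset_insert _ _)
      have h2 := h1.step (st_step hQ hT' v ⟨t, htM⟩ (Set.mem_insert _ _)) (hok _).1 (hok _).2
      refine h2.mono (by omega) ?_
      intro A hA
      rcases Set.mem_insert_iff.1 hA with h3 | h3
      · rw [h3]
        exact Set.mem_insert _ _
      · exact Set.mem_insert_of_mem _ (Set.mem_insert_of_mem _ h3)
  have h1 := hind M (by omega)
  have hT' : T0 q M Q ⊆ insert (Pl q Q v ⟨M, by omega⟩) T := hT.trans (Set.subset_insert _ _)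
  have hrow : (Rw q Q v).depth ≤ 2 ∧ (Rw q Q v).size ≤ BB M q Q := by
    refine line_ok _ _ (XL_var v M) ?_
    have := hlen (Fin.last M)
    rw [List.length_append] at this
    exact le_trans (Nat.le_add_right _ _) this
  have h2 := h1.step (st_end hQ hT' v (Set.mem_insert _ _)) hrow.1 hrow.2
  refine h2.mono (by omega) ?_
  intro A hA
  rcases Set.mem_insert_iff.1 hA with h3 | h3
  · rw [h3]
    exact Set.mem_insert _ _
  · exact Set.mem_insert_of_mem _ (Set.mem_insert_of_mem _ h3)

/-- The list of all entries of the first `m` rows. -/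
def TL (q Q M m : ℕ) : List (Fm q) := ((List.finRange M).take m).flatMap fun v => XL q Q v M

theorem TL_var (m : ℕ) : ∀ A ∈ TL q Q M m, ∃ x, A = .var x := flatMap_var _ _ fun v _ => XL_var v M

theorem TL_len (hq : 0 < q) (m : ℕ) : (TL q Q M m).length ≤ 2 * Q * q ^ 2 * M ^ 2 := by
  unfold TL
  refine (flatMap_len _ _ (M * (Q * q)) fun v _ => XL_len hq v M).trans ?_
  have h1 : ((List.finRange M).take m).length ≤ M := by
    rw [List.length_take, List.length_finRange]
    exact min_le_right _ _
  calc _ ≤ M * (M * (Q * q)) := Nat.mul_le_mul_right _ h1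
    _ = Q * q * M ^ 2 := by ring
    _ ≤ 2 * Q * q ^ 2 * M ^ 2 := by
      refine Nat.mul_le_mul_right _ ?_
      calc Q * q ≤ 2 * (Q * q ^ 2) := by nlinarith [Nat.mul_le_mul_left Q (Nat.le_self_pow (n := 2) (by norm_num) q)]
        _ = _ := by ring

theorem dv_tot (hq : 0 < q) (hM : 1 ≤ M) (hQ : Q = QQ q) {k : ℕ} {T : Set (Fm q)} (hT : T0 q M Q ⊆ T)
    (h : Dv (SysQ q) (ASM M Q) 2 (BB M q Q) k T) (m : ℕ) (hm : m < M) :
    Dv (SysQ q) (ASM M Q) 2 (BB M q Q) (k + (m + 1) * (M + 3)) (insert (mdL 1 (TL q Q M (m + 1))) T) := by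
  have htake : ∀ m : ℕ, ∀ hm : m < M, TL q Q M (m + 1) = TL q Q M m ++ XL q Q (⟨m, hm⟩ : Fin M) M := by
    intro m hm
    unfold TL
    have h1 : (List.finRange M).take (m + 1) = (List.finRange M).take m ++ [⟨m, hm⟩] := by
      rw [List.take_add_one, List.getElem?_eq_getElem (by simpa using hm)]
      simp
    rw [h1, List.flatMap_append]
    simp
  induction m with
  | zero =>
    have h1 := dv_row hq hM hQ (⟨0, hm⟩ : Fin M) hT h
    refine h1.mono (by omega) ?_
    have h2 : TL q Q M (0 + 1) = XL q Q (⟨0, hm⟩ : Fin M) M := by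
      rw [htake 0 hm]
      simp [TL]
    rw [h2]
    intro A hA
    rcases Set.mem_insert_iff.1 hA with h3 | h3
    · rw [h3]
      unfold Rw
      rw [if_pos rfl]
      exact Set.mem_insert _ _
    · exact Set.mem_insert_of_mem _ h3
  | succ m ih =>
    have h1 := ih (by omega)
    have hT' : T0 q M Q ⊆ insert (mdL 1 (TL q Q M (m + 1))) T := hT.trans (Set.subset_insert _ _)
    have h2 := dv_row hq hM hQ (⟨m + 1, hm⟩ : Fin M) hT' h1
    have hr : Rw q Q (⟨m + 1, hm⟩ : Fin M) = mdL 0 (XL q Q (⟨m + 1, hm⟩ : Fin M) M) := by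
      unfold Rw
      rw [if_neg]
      simp
    have h3 := h2.step (st_sum (Q := Q) (TL q Q M (m + 1)) (XL q Q (⟨m + 1, hm⟩ : Fin M) M)
      (Set.mem_insert_of_mem _ (Set.mem_insert _ _)) (by rw [← hr]; exact Set.mem_insert _ _))
      (A := mdL 1 (TL q Q M (m + 1) ++ XL q Q (⟨m + 1, hm⟩ : Fin M) M)) (by
        rw [← htake (m + 1) hm]
        exact (line_ok (Q := Q) (M := M) 1 _ (TL_var _) (TL_len hq _)).1) (by
        rw [← htake (m + 1) hm]
        exact (line_ok (Q := Q) (M := M) 1 _ (TL_var _) (TL_len hq _)).2)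
    rw [← htake (m + 1) hm] at h3
    refine h3.mono ?_ ?_
    · have : (m + 1 + 1) * (M + 3) = (m + 1) * (M + 3) + (M + 3) := by ring
      omega
    · intro A hA
      rcases Set.mem_insert_iff.1 hA with h4 | h4
      · rw [h4]
        exact Set.mem_insert _ _
      · exact Set.mem_insert_of_mem _ (Set.mem_insert_of_mem _ (Set.mem_insert_of_mem _ h4))

/-- Removing the entries in pairs. -/
theorem dv_remove (hq : 0 < q) (hQ : Q = QQ q) {T : Set (Fm q)} (hT : T0 q M Q ⊆ T) :
    ∀ (n : ℕ) (l : List (Fin M × Fin M)), l.length ≤ n → l.length ≤ M ^ 2 → l.Nodup → (∀ p ∈ l, p.swap ∈ l) → ∀ k : ℕ,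
      Dv (SysQ q) (ASM M Q) 2 (BB M q Q) k (insert (mdL 1 (l.flatMap fun p => DV 1 Q (.inl p : Vr M))) T) →
      Dv (SysQ q) (ASM M Q) 2 (BB M q Q) (k + n + 1) (insert (cnL true []) T) := by
  have hok : ∀ l : List (Fin M × Fin M), l.length ≤ M ^ 2 →
      (mdL 1 (l.flatMap fun p => DV 1 Q (.inl p : Vr M)) : Fm q).depth ≤ 2 ∧
      (mdL 1 (l.flatMap fun p => DV 1 Q (.inl p : Vr M)) : Fm q).size ≤ BB M q Q := by
    intro l hl
    refine line_ok 1 _ (flatMap_var _ _ fun _ _ => DV_var _ _ _) ?_
    refine (flatMap_len _ _ (Q * q) fun p _ => ?_).trans ?_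
    · have := DV_length (q := q) hq 1 Q (.inl p : Vr M)
      rwa [one_mul] at this
    · calc l.length * (Q * q) ≤ M ^ 2 * (Q * q) := Nat.mul_le_mul_right _ hl
        _ = Q * q * M ^ 2 := by ring
        _ ≤ 2 * Q * q ^ 2 * M ^ 2 := by
          refine Nat.mul_le_mul_right _ ?_
          calc Q * q ≤ 2 * (Q * q ^ 2) := by nlinarith [Nat.mul_le_mul_left Q (Nat.le_self_pow (n := 2) (by norm_num) q)]
            _ = _ := by ring
  have hbot : (cnL true [] : Fm q).depth ≤ 2 ∧ (cnL true [] : Fm q).size ≤ BB M q Q := by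
    constructor
    · have h := dep_clauseFm (p := q) []
      exact h
    · have h := size_clauseFm (p := q) []
      unfold BB
      refine h.trans ?_
      simp
  intro n
  induction n with
  | zero =>
    intro l hl _ _ _ k h
    have h0 : l = [] := List.length_eq_zero_iff.1 (by omega)
    subst h0
    have h1 := h.step (st_bot (Q := Q) (by rw [List.flatMap_nil]; exact Set.mem_insert _ _)) hbot.1 hbot.2
    refine h1.mono (by omega) ?_
    intro A hA
    rcases Set.mem_insert_iff.1 hA with h4 | h4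
    · rw [h4]
      exact Set.mem_insert _ _
    · exact Set.mem_insert_of_mem _ (Set.mem_insert_of_mem _ h4)
  | succ n ih =>
    intro l hl hlM hnd hsw k h
    match l, hl, hlM, hnd, hsw, h with
    | [], _, _, _, _, h =>
      have h1 := h.step (st_bot (Q := Q) (by rw [List.flatMap_nil]; exact Set.mem_insert _ _)) hbot.1 hbot.2
      refine h1.mono (by omega) ?_
      intro A hA
      rcases Set.mem_insert_iff.1 hA with h4 | h4
      · rw [h4]
        exact Set.mem_insert _ _
      · exact Set.mem_insert_of_mem _ (Set.mem_insert_of_mem _ h4)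
    | (u, v) :: tl, hl, hlM, hnd, hsw, h =>
      rw [List.nodup_cons] at hnd
      have hT' : T0 q M Q ⊆ insert (mdL 1 (((u, v) :: tl).flatMap fun p => DV 1 Q (.inl p : Vr M))) T :=
        hT.trans (Set.subset_insert _ _)
      by_cases huv : u = v
      · subst huv
        have h1 := h.step (st_diag hQ hT' u (tl.flatMap fun p => DV 1 Q (.inl p : Vr M)) (by
          rw [List.flatMap_cons]
          exact Set.mem_insert _ _)) (hok tl (by rw [List.length_cons] at hlM; omega)).1
          (hok tl (by rw [List.length_cons] at hlM; omega)).2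
        have h2 := ih tl (by rw [List.length_cons] at hl; omega) (by rw [List.length_cons] at hlM; omega) hnd.2 (by
          intro p hp
          have h3 := hsw p (List.mem_cons_of_mem _ hp)
          rcases List.mem_cons.1 h3 with h4 | h4
          · exfalso
            apply hnd.1
            have h5 : p = (u, u) := by
              rw [← Prod.swap_swap p, h4]
              rfl
            rw [← h5]
            exact hp
          · exact h4) (k + 1) (h1.mono le_rfl (by
            intro A hA
            rcases Set.mem_insert_iff.1 hA with h4 | h4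
            · rw [h4]
              exact Set.mem_insert _ _
            · exact Set.mem_insert_of_mem _ (Set.mem_insert_of_mem _ h4)))
        exact h2.mono (by omega) subset_rfl
      · have hmem : (v, u) ∈ tl := by
          have h3 := hsw (u, v) List.mem_cons_self
          rcases List.mem_cons.1 h3 with h4 | h4
          · exfalso
            have h5 : v = u := congrArg Prod.fst h4
            exact huv h5.symm
          · exact h4
        obtain ⟨l1, l2, rfl⟩ := List.append_of_mem hmem
        have h1 := h.step (st_pair hQ hT' u v (l1.flatMap fun p => DV 1 Q (.inl p : Vr M))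
          (l2.flatMap fun p => DV 1 Q (.inl p : Vr M)) (by
          rw [List.flatMap_cons, List.flatMap_append, List.flatMap_cons]
          exact Set.mem_insert _ _)) (by
          rw [← List.flatMap_append]
          exact (hok (l1 ++ l2) (by simp only [List.length_cons, List.length_append] at hlM ⊢; omega)).1) (by
          rw [← List.flatMap_append]
          exact (hok (l1 ++ l2) (by simp only [List.length_cons, List.length_append] at hlM ⊢; omega)).2)
        rw [← List.flatMap_append] at h1
        have hnd2 := hnd.2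
        rw [List.nodup_middle, List.nodup_cons] at hnd2
        have h2 := ih (l1 ++ l2) (by simp only [List.length_cons, List.length_append] at hl ⊢; omega)
          (by simp only [List.length_cons, List.length_append] at hlM ⊢; omega) hnd2.2 (by
          intro p hp
          have hp' : p ∈ (u, v) :: (l1 ++ (v, u) :: l2) := by
            refine List.mem_cons_of_mem _ ?_
            rcases List.mem_append.1 hp with h' | h'
            · exact List.mem_append_left _ h'
            · exact List.mem_append_right _ (List.mem_cons_of_mem _ h')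
          have h3 := hsw p hp'
          rcases List.mem_cons.1 h3 with h4 | h4
          · exfalso
            have h5 : p = (v, u) := by
              rw [← Prod.swap_swap p, h4]
              rfl
            rw [h5] at hp
            exact hnd2.1 hp
          · rcases List.mem_append.1 h4 with h5 | h5
            · exact List.mem_append_left _ h5
            · rcases List.mem_cons.1 h5 with h6 | h6
              · exfalso
                have h7 : p = (u, v) := by
                  rw [← Prod.swap_swap p, h6]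
                  rfl
                apply hnd.1
                rw [← h7]
                rcases List.mem_append.1 hp with h' | h'
                · exact List.mem_append_left _ h'
                · exact List.mem_append_right _ (List.mem_cons_of_mem _ h')
              · exact List.mem_append_right _ h6) (k + 1) (h1.mono le_rfl (by
            intro A hA
            rcases Set.mem_insert_iff.1 hA with h4 | h4
            · rw [h4]
              exact Set.mem_insert _ _
            · exact Set.mem_insert_of_mem _ (Set.mem_insert_of_mem _ h4)))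
        exact h2.mono (by omega) subset_rfl

/-- All pairs in row order. -/
def PLs (M : ℕ) : List (Fin M × Fin M) := (List.finRange M).flatMap fun v => (List.finRange M).map fun u => (v, u)

theorem PLs_nodup : (PLs M).Nodup := by
  unfold PLs
  rw [List.nodup_flatMap]
  refine ⟨fun v _ => (List.nodup_finRange M).map fun a b h => congrArg Prod.snd h, ?_⟩
  refine List.Pairwise.imp_of_mem ?_ (List.nodup_finRange M)
  intro a b _ _ hab
  unfold Function.onFun
  rw [List.disjoint_left]
  intro p h1 h2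
  rw [List.mem_map] at h1 h2
  obtain ⟨x, _, hx⟩ := h1
  obtain ⟨y, _, hy⟩ := h2
  exact hab (congrArg Prod.fst (hx.trans hy.symm))

theorem PLs_mem (p : Fin M × Fin M) : p ∈ PLs M := by
  unfold PLs
  rw [List.mem_flatMap]
  exact ⟨p.1, List.mem_finRange _, List.mem_map.2 ⟨p.2, List.mem_finRange _, rfl⟩⟩

theorem PLs_len : (PLs M).length ≤ M ^ 2 := by
  unfold PLs
  refine (flatMap_len _ _ M fun v _ => ?_).trans ?_
  · rw [List.length_map, List.length_finRange]
  · rw [List.length_finRange, sq]

theorem TL_eq : TL q Q M M = (PLs M).flatMap fun p => DV 1 Q (.inl p : Vr M) := by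
  unfold TL XL PLs
  rw [List.take_of_length_le (by simp), List.flatMap_assoc]
  refine List.flatMap_congr fun v _ => ?_
  rw [List.flatMap_map]

theorem up (hq : 0 < q) (hM : 1 ≤ M) (hQ : Q = QQ q) (hlen : ∀ C ∈ ASM M Q, C.length ≤ Q) :
    ∃ π : List (Fm q), Refutes (SysQ q) 2 (ASM M Q) π ∧
      psize π ≤ ((ASM M Q).length + M * (M + 3) + M ^ 2 + 1) * BB M q Q := by
  have h0 : Dv (SysQ q) (ASM M Q) 2 (BB M q Q) (ASM M Q).length (T0 q M Q) := by
    refine dv_clauses le_rfl fun C hC => ?_
    unfold BB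
    have h1 := hlen C hC
    have h2 : 2 * Q ≤ 2 * Q * q ^ 2 * M ^ 2 := by
      calc 2 * Q = 2 * Q * 1 * 1 := by ring
        _ ≤ 2 * Q * q ^ 2 * M ^ 2 :=
          Nat.mul_le_mul (Nat.mul_le_mul_left _ (Nat.one_le_pow _ _ hq)) (Nat.one_le_pow _ _ hM)
    omega
  have h1 := dv_tot hq hM hQ subset_rfl h0 (M - 1) (by omega)
  have hM1 : M - 1 + 1 = M := by omega
  rw [hM1, TL_eq] at h1
  have h2 := dv_remove hq hQ subset_rfl (M ^ 2) (PLs M) PLs_len PLs_len PLs_nodup (fun p _ => PLs_mem p.swap) _ h1
  obtain ⟨π, h3, h4⟩ := h2.refutes (Set.mem_insert _ _)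
  exact ⟨π, h3, h4⟩

theorem ASM_len {M Q : ℕ} (hQ : 3 ≤ Q) : ∀ C ∈ ASM M Q, C.length ≤ Q := by
  have h1 : ∀ (ν : Vr M), ∀ C ∈ oneC Q ν, C.length ≤ Q := by
    intro ν C hC
    unfold oneC at hC
    rw [List.mem_cons] at hC
    rcases hC with rfl | hC
    · unfold vals
      simp
    · simp only [List.mem_flatMap, List.mem_map] at hC
      obtain ⟨_, _, _, _, rfl⟩ := hC
      simp only [List.length_cons, List.length_nil]
      omega
  have h2 : ∀ (ν : Vr M) (c : ZMod Q), ∀ C ∈ cstC Q ν c, C.length ≤ Q := by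
    intro ν c C hC
    unfold cstC at hC
    rw [List.mem_singleton] at hC
    subst hC
    simp only [List.length_cons, List.length_nil]
    omega
  have h3 : ∀ (ν₁ ν₂ ν₃ : Vr M), ∀ C ∈ addC Q ν₁ ν₂ ν₃, C.length ≤ Q := by
    intro ν₁ ν₂ ν₃ C hC
    unfold addC at hC
    simp only [List.mem_flatMap, List.mem_map] at hC
    obtain ⟨_, _, _, _, _, _, rfl⟩ := hC
    simp only [List.length_cons, List.length_nil]
    omega
  intro C hC
  unfold ASM at hC
  simp only [List.mem_append, List.mem_flatMap] at hC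
  rcases hC with ((⟨ν, _, hC⟩ | ⟨v, _, (hC | hC) | hC⟩) | ⟨u, _, v, _, hC⟩) | ⟨v, _, t, _, hC⟩
  · exact h1 ν C hC
  · exact h2 _ _ C hC
  · exact h2 _ _ C hC
  · exact h2 _ _ C hC
  · exact h3 _ _ _ C hC
  · exact h3 _ _ _ C hC

theorem size_length (F : CNF) : F.length ≤ F.size := by
  unfold CNF.size
  induction F with
  | nil => simp
  | cons a l ih =>
    rw [List.map_cons, List.sum_cons, List.length_cons]
    omega

theorem QQ_ge {q : ℕ} (hq : q.Prime) : 3 ≤ QQ q := by
  unfold QQ
  have := hq.two_le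
  split_ifs with h <;> omega

/-- The upper bound. -/
theorem stUp : StUp := by
  intro q hq
  have hQ3 := QQ_ge hq
  have : NeZero (QQ q) := ⟨by omega⟩
  refine ⟨(200 * (QQ q + 1) ^ 3 + 6) * (1 + 2 * QQ q * q ^ 2), fun M hM => ?_⟩
  obtain ⟨π, h1, h2⟩ := up (M := M) (Q := QQ q) hq.pos hM rfl (ASM_len hQ3)
  refine ⟨π, h1, h2.trans ?_⟩
  have h3 : (ASM M (QQ q)).length ≤ 50 * (QQ q + 1) ^ 3 * (M + 1) ^ 2 := (size_length _).trans ASM_size
  have hM1 : 1 ≤ M ^ 2 := Nat.one_le_pow _ _ hM
  have h4 : (M + 1) ^ 2 ≤ 4 * M ^ 2 := by nlinarith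
  have h5 : M * (M + 3) ≤ 4 * M ^ 2 := by nlinarith
  have h6 : (ASM M (QQ q)).length + M * (M + 3) + M ^ 2 + 1 ≤ (200 * (QQ q + 1) ^ 3 + 6) * M ^ 2 := by
    have h7 : 50 * (QQ q + 1) ^ 3 * (M + 1) ^ 2 ≤ 50 * (QQ q + 1) ^ 3 * (4 * M ^ 2) := Nat.mul_le_mul_left _ h4
    calc _ ≤ 50 * (QQ q + 1) ^ 3 * (4 * M ^ 2) + 4 * M ^ 2 + M ^ 2 + M ^ 2 := by omega
      _ = _ := by ring
  have h8 : BB M q (QQ q) ≤ (1 + 2 * QQ q * q ^ 2) * M ^ 2 := by
    unfold BB
    calc 1 + 2 * QQ q * q ^ 2 * M ^ 2 ≤ M ^ 2 + 2 * QQ q * q ^ 2 * M ^ 2 := Nat.add_le_add_right hM1 _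
      _ = _ := by ring
  calc _ ≤ ((200 * (QQ q + 1) ^ 3 + 6) * M ^ 2) * ((1 + 2 * QQ q * q ^ 2) * M ^ 2) := Nat.mul_le_mul h6 h8
    _ = (200 * (QQ q + 1) ^ 3 + 6) * (1 + 2 * QQ q * q ^ 2) * M ^ 4 := by ring
    _ ≤ _ := Nat.mul_le_mul_left _ (Nat.pow_le_pow_right hM (by norm_num))

end ACpSep
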