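import Pool.Agent.H88.AS.CSound
import Pool.Agent.H88.AS.Up2

/-!
helper88 (project MP_28250c_AS / CQ): the polynomial size refutation of `Count_q^N` with `MOD_q` connectives.
-/

set_option autoImplicit false
set_option linter.unusedSectionVars false

namespace ACpSep

open ACpFrege ACpB

theorem inst_orS {q : ℕ} (s : ℕ → Fm q) (G : ℕ → List (Fm q)) (l : List (Sch q)) :
    (orS l).inst s G = [cnL true (l.flatMap (Sch.inst s G))] := by
  unfold orS
  rw [Sch.inst, List.flatMap_def]
  congr 3
  exact ofFn_get_map l (Sch.inst s G)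

section cu

variable {q : ℕ}

/-- The variable of a block. -/
def V (q : ℕ) (e : Finset ℕ) : Fm q := .var (zvar e)

/-- The variables of a list of blocks. -/
def vs (q : ℕ) (l : List (Finset ℕ)) : List (Fm q) := l.map (V q)

theorem vs_append (l l' : List (Finset ℕ)) : vs q (l ++ l') = vs q l ++ vs q l' := List.map_append

theorem vs_var (l : List (Finset ℕ)) : ∀ A ∈ vs q l, ∃ x, A = .var x := by
  intro A hA
  unfold vs at hA
  rw [List.mem_map] at hA
  obtain ⟨e, _, rfl⟩ := hA
  exact ⟨_, rfl⟩

/-- The line `¬z_e ∨ MOD_r(l)`. -/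
def Al (q : ℕ) (r : ZMod q) (e : Finset ℕ) (l : List (Finset ℕ)) : Fm q := cnL true [.neg (V q e), mdL r (vs q l)]

/-- The line `z_l ∨ MOD_1(E)`. -/
def Kl (q : ℕ) (E l : List (Finset ℕ)) : Fm q := cnL true (vs q l ++ [mdL 1 (vs q E)])

theorem size_V (e : Finset ℕ) : (V q e).size = 1 := by
  unfold V
  rw [Fm.size]

theorem sum_vs (l : List (Finset ℕ)) : ((vs q l).map Fm.size).sum = l.length := by
  rw [size_vars _ (vs_var l)]
  simp [vs]

theorem Al_size (r : ZMod q) (e : Finset ℕ) (l : List (Finset ℕ)) : (Al q r e l).size = 4 + l.length := by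
  unfold Al
  rw [size_cnL, List.map_cons, List.map_cons, List.map_nil, List.sum_cons, List.sum_cons, List.sum_nil, size_mdL, sum_vs, Fm.size,
    size_V]
  ring

theorem dep_md_any (r : ZMod q) (l : List (Finset ℕ)) (c : ℕ) : (mdL r (vs q l)).dep c ≤ 1 := by
  unfold mdL
  rw [Fm.dep]
  have : (Finset.univ.sup fun i => ((vs q l).get i).dep 0) = 0 := by
    rw [← Nat.bot_eq_zero, Finset.sup_eq_bot_iff]
    intro i _
    obtain ⟨x, hx⟩ := vs_var l ((vs q l).get i) (List.get_mem _ i)
    rw [hx, Fm.dep]
    rfl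
  rw [this]

theorem dep_or (l : List (Fm q)) (h : ∀ A ∈ l, ∀ c, A.dep c ≤ 1) : (cnL true l).depth ≤ 2 := by
  unfold Fm.depth cnL
  rw [Fm.dep]
  have h0 : ∀ c : ℕ, (Finset.univ.sup fun i => (l.get i).dep c) ≤ 1 := fun c =>
    Finset.sup_le fun i _ => h _ (List.get_mem l i) c
  have h1 := h0 (if true = true then 2 else 3)
  have h2 : (if 0 = (if true = true then 2 else 3) then 0 else 1) ≤ 1 := by
    split_ifs <;> omega
  exact Nat.add_le_add h2 h1

theorem Al_depth (r : ZMod q) (e : Finset ℕ) (l : List (Finset ℕ)) : (Al q r e l).depth ≤ 2 := by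
  refine dep_or _ ?_
  intro A hA c
  simp only [List.mem_cons, List.not_mem_nil, or_false] at hA
  rcases hA with rfl | rfl
  · have h := dep_lit (p := q) (zvar e, false) c
    simpa [V] using h
  · exact dep_md_any r l c

theorem Kl_size (E l : List (Finset ℕ)) : (Kl q E l).size = 2 + l.length + E.length := by
  unfold Kl
  rw [size_cnL, List.map_append, List.sum_append, sum_vs, List.map_cons, List.map_nil, List.sum_cons, List.sum_nil, size_mdL, sum_vs]
  ring

theorem Kl_depth (E l : List (Finset ℕ)) : (Kl q E l).depth ≤ 2 := by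
  refine dep_or _ ?_
  intro A hA c
  rw [List.mem_append] at hA
  rcases hA with hA | hA
  · obtain ⟨x, rfl⟩ := vs_var l A hA
    rw [Fm.dep]
    omega
  · rw [List.mem_singleton] at hA
    subst hA
    exact dep_md_any 1 E c

variable {F : CNF} {B k : ℕ} {T : Set (Fm q)}

/-! ### Single steps -/

theorem sc_ax (e : Finset ℕ) : StepT (SysC q) F T (Al q 0 e []) := by
  refine Or.inr ⟨cAx q, by simp [SysC], fun _ => V q e, fun _ => [], ?_, ?_⟩
  · unfold cAx
    rw [inst_orS, List.flatMap_cons, List.flatMap_cons, List.flatMap_nil, inst_mdS, Sch.inst, Sch.inst]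
    simp [Al, vs]
  · intro P hP
    exact absurd hP (by simp [cAx])

theorem sc_st (r : ZMod q) (hr : r = 0 ∨ r = 1) (e f : Finset ℕ) (l : List (Finset ℕ)) (h1 : Al q r e l ∈ T)
    (h2 : clauseFm [(zvar e, false), (zvar f, false)] ∈ T) : StepT (SysC q) F T (Al q r e (l ++ [f])) := by
  refine Or.inr ⟨cSt q r, by rcases hr with rfl | rfl <;> simp [SysC], fun i => if i = 0 then V q e else V q f,
    fun _ => vs q l, ?_, ?_⟩
  · unfold cSt
    rw [inst_orS, List.flatMap_cons, List.flatMap_cons, List.flatMap_nil, inst_mdS]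
    simp [Al, vs, Sch.inst]
  · intro P hP A hA
    simp only [cSt, List.mem_cons, List.not_mem_nil, or_false] at hP
    rcases hP with rfl | rfl
    · rw [inst_orS, List.mem_singleton] at hA
      rw [hA]
      simpa [inst_mdS, Al, vs, Sch.inst] using h1
    · rw [inst_orS, List.mem_singleton] at hA
      rw [hA]
      simpa [clauseFm, Sch.inst, V] using h2

theorem sc_turn (e : Finset ℕ) (l : List (Finset ℕ)) (h1 : Al q 0 e l ∈ T) : StepT (SysC q) F T (Al q 1 e (l ++ [e])) := by
  refine Or.inr ⟨cTurn q, by simp [SysC], fun _ => V q e, fun _ => vs q l, ?_, ?_⟩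
  · unfold cTurn
    rw [inst_orS, List.flatMap_cons, List.flatMap_cons, List.flatMap_nil, inst_mdS]
    simp [Al, vs, Sch.inst]
  · intro P hP A hA
    simp only [cTurn, List.mem_cons, List.not_mem_nil, or_false] at hP
    subst hP
    rw [inst_orS, List.mem_singleton] at hA
    rw [hA]
    simpa [inst_mdS, Al, vs, Sch.inst] using h1

theorem sc_wk (E : List (Finset ℕ)) (h : cnL true (vs q E) ∈ T) : StepT (SysC q) F T (Kl q E E) := by
  refine Or.inr ⟨cWk q, by simp [SysC], fun _ => mdL 1 (vs q E), fun _ => vs q E, ?_, ?_⟩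
  · unfold cWk
    rw [inst_orS]
    simp [Kl, Sch.inst]
  · intro P hP A hA
    simp only [cWk, List.mem_cons, List.not_mem_nil, or_false] at hP
    subst hP
    rw [inst_orS, List.mem_singleton] at hA
    rw [hA]
    simpa [Sch.inst] using h

theorem sc_res (E l : List (Finset ℕ)) (e : Finset ℕ) (h1 : Kl q E (l ++ [e]) ∈ T) (h2 : Al q 1 e E ∈ T) :
    StepT (SysC q) F T (Kl q E l) := by
  refine Or.inr ⟨cRes q, by simp [SysC], fun i => if i = 0 then V q e else mdL 1 (vs q E), fun _ => vs q l, ?_, ?_⟩
  · unfold cRes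
    rw [inst_orS]
    simp [Kl, Sch.inst]
  · intro P hP A hA
    simp only [cRes, List.mem_cons, List.not_mem_nil, or_false] at hP
    rcases hP with rfl | rfl
    · rw [inst_orS, List.mem_singleton] at hA
      rw [hA]
      simpa [Kl, vs, Sch.inst] using h1
    · rw [inst_orS, List.mem_singleton] at hA
      rw [hA]
      simpa [Al, Sch.inst] using h2

theorem sc_one (E : List (Finset ℕ)) (h : Kl q E [] ∈ T) : StepT (SysC q) F T (mdL 1 (vs q E)) := by
  refine Or.inr ⟨cOne q, by simp [SysC], fun _ => mdL 1 (vs q E), fun _ => [], ?_, ?_⟩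
  · simp [cOne, Sch.inst]
  · intro P hP A hA
    simp only [cOne, List.mem_cons, List.not_mem_nil, or_false] at hP
    subst hP
    rw [inst_orS, List.mem_singleton] at hA
    rw [hA]
    simpa [Kl, vs, Sch.inst] using h

theorem sc_emp : StepT (SysC q) F T (mdL 0 (vs q [])) := by
  refine Or.inr ⟨cEmp q, by simp [SysC], fun _ => .var 0, fun _ => [], ?_, ?_⟩
  · simp [cEmp, inst_mdS, vs]
  · intro P hP
    exact absurd hP (by simp [cEmp])

variable [NeZero q]

theorem sc_sum (r : ZMod q) (l l' : List (Finset ℕ)) (h1 : mdL r (vs q l) ∈ T) (h2 : mdL 1 (vs q l') ∈ T) :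
    StepT (SysC q) F T (mdL (r + 1) (vs q (l ++ l'))) := by
  refine Or.inr ⟨rSum q r 1, ?_, fun _ => .var 0, fun j => if j = 0 then vs q l else vs q l', ?_, ?_⟩
  · unfold SysC
    rw [List.mem_append, List.mem_append, List.mem_append]
    exact Or.inl (Or.inl (Or.inr (List.mem_map.2 ⟨r, mem_vals r, rfl⟩)))
  · unfold rSum
    rw [inst_mdS, vs_append]
    simp [Sch.inst]
  · intro P hP A hA
    unfold rSum at hP
    simp only [List.mem_cons, List.not_mem_nil, or_false] at hP
    rcases hP with rfl | rfl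
    · rw [inst_mdS, List.mem_singleton] at hA
      rw [hA]
      simpa [Sch.inst] using h1
    · rw [inst_mdS, List.mem_singleton] at hA
      rw [hA]
      simpa [Sch.inst] using h2

theorem getD_flatMap {α β : Type} (Gs : List (List α)) (f : List α → List β) :
    ((List.range Gs.length).flatMap fun j => f (Gs.getD j [])) = Gs.flatMap f := by
  induction Gs with
  | nil => rfl
  | cons a l ih =>
    rw [List.length_cons, List.range_succ_eq_map, List.flatMap_cons, List.flatMap_map, List.flatMap_cons]
    congr 1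

theorem sc_rem (r : ZMod q) (e : Finset ℕ) (Gs : List (List (Finset ℕ))) (hG : Gs.length = q)
    (h : mdL r (vs q (Gs.flatMap fun g => e :: g)) ∈ T) : StepT (SysC q) F T (mdL r (vs q Gs.flatten)) := by
  refine Or.inr ⟨cRem q r, ?_, fun _ => V q e, fun j => vs q (Gs.getD j []), ?_, ?_⟩
  · unfold SysC
    rw [List.mem_append, List.mem_append]
    exact Or.inl (Or.inr (List.mem_map.2 ⟨r, mem_vals r, rfl⟩))
  · unfold cRem
    rw [inst_mdS, List.flatMap_map]
    congr 2
    have h1 := getD_flatMap Gs (fun g => vs q g)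
    rw [hG] at h1
    simp only [Sch.inst]
    rw [h1]
    unfold vs
    rw [List.map_flatten, List.flatMap_def]
  · intro P hP A hA
    simp only [cRem, List.mem_cons, List.not_mem_nil, or_false] at hP
    subst hP
    rw [inst_mdS, List.mem_singleton] at hA
    rw [hA]
    have h1 := getD_flatMap Gs (fun g => V q e :: vs q g)
    rw [hG] at h1
    have h2 : (((List.range q).flatMap fun j => [(Sch.mv 0 : Sch q), Sch.sq j]).flatMap
        (Sch.inst (fun _ => V q e) fun j => vs q (Gs.getD j []))) = vs q (Gs.flatMap fun g => e :: g) := by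
      rw [List.flatMap_assoc]
      have h3 : ∀ j, ([(Sch.mv 0 : Sch q), Sch.sq j].flatMap (Sch.inst (fun _ => V q e) fun j => vs q (Gs.getD j []))) =
          V q e :: vs q (Gs.getD j []) := by
        intro j
        simp [Sch.inst]
      simp only [h3]
      rw [h1]
      unfold vs
      rw [List.map_flatMap]
      rfl
    rw [h2]
    exact h

theorem sc_bot (r : ZMod q) (hr : r ≠ 0) (h : mdL r (vs q []) ∈ T) : StepT (SysC q) F T (cnL true []) := by
  refine Or.inr ⟨cBot q r, ?_, fun _ => .var 0, fun _ => [], ?_, ?_⟩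
  · unfold SysC
    rw [List.mem_append]
    refine Or.inr (List.mem_map.2 ⟨r, List.mem_filter.2 ⟨mem_vals r, ?_⟩, rfl⟩)
    simpa using hr
  · unfold cBot
    rw [Sch.inst]
    simp
  · intro P hP A hA
    simp only [cBot, List.mem_cons, List.not_mem_nil, or_false] at hP
    subst hP
    rw [inst_mdS, List.mem_singleton] at hA
    rw [hA]
    simpa [vs] using h

end cu

end ACpSep
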