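import Pool.Agent.H88.AS.CUp

/-!
helper88 (project MP_28250c_AS / CQ): the upper bound `StUpC`.
-/

set_option autoImplicit false
set_option linter.unusedSectionVars false

namespace ACpSep

open ACpFrege ACpB

variable {q : ℕ} [NeZero q] {F : CNF} {B k : ℕ} {T : Set (Fm q)}

theorem ins_mono {A A' : Fm q} {T' : Set (Fm q)} (h : T' ⊆ T) : insert A T' ⊆ insert A (insert A' T) := by
  intro x hx
  rcases Set.mem_insert_iff.1 hx with h1 | h1
  · rw [h1]
    exact Set.mem_insert _ _
  · exact Set.mem_insert_of_mem _ (Set.mem_insert_of_mem _ (h h1))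

/-- The clause formula of a pair. -/
def pr2 (q : ℕ) (e f : Finset ℕ) : Fm q := clauseFm [(zvar e, false), (zvar f, false)]

theorem dv_A0 (e : Finset ℕ) (l : List (Finset ℕ)) (hl : ∀ f ∈ l, pr2 q e f ∈ T) (hB : 4 + l.length ≤ B)
    (h : Dv (SysC q) F 2 B k T) : Dv (SysC q) F 2 B (k + 1 + l.length) (insert (Al q 0 e l) T) := by
  induction l using List.reverseRecOn with
  | nil =>
    exact h.step (sc_ax e) (Al_depth _ _ _) (by rw [Al_size]; exact hB)
  | append_singleton l f ih =>
    rw [List.length_append, List.length_singleton] at hB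
    have h1 := ih (fun g hg => hl g (List.mem_append_left _ hg)) (by omega)
    have h2 := h1.step (sc_st 0 (Or.inl rfl) e f l (Set.mem_insert _ _)
      (Set.mem_insert_of_mem _ (hl f (by simp)))) (Al_depth _ _ _) (by
        rw [Al_size, List.length_append, List.length_singleton]
        omega)
    exact h2.mono (by rw [List.length_append, List.length_singleton]; omega) (ins_mono subset_rfl)

theorem dv_A1 (e : Finset ℕ) (l l2 : List (Finset ℕ)) (hl : ∀ f ∈ l2, pr2 q e f ∈ T) (hB : 4 + (l ++ l2).length ≤ B)
    (h : Dv (SysC q) F 2 B k (insert (Al q 1 e l) T)) :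
    Dv (SysC q) F 2 B (k + l2.length) (insert (Al q 1 e (l ++ l2)) T) := by
  induction l2 using List.reverseRecOn with
  | nil =>
    rw [List.append_nil]
    exact h
  | append_singleton l2 f ih =>
    rw [← List.append_assoc, List.length_append, List.length_singleton] at hB
    have h1 := ih (fun g hg => hl g (List.mem_append_left _ hg)) (by omega)
    have h2 := h1.step (sc_st 1 (Or.inr rfl) e f (l ++ l2) (Set.mem_insert _ _)
      (Set.mem_insert_of_mem _ (hl f (by simp)))) (Al_depth _ _ _) (by
        rw [Al_size, List.length_append, List.length_singleton]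
        omega)
    rw [← List.append_assoc]
    exact h2.mono (by rw [List.length_append, List.length_singleton]; omega) (ins_mono subset_rfl)

theorem dv_D (E : List (Finset ℕ)) (hnd : E.Nodup) (e : Finset ℕ) (he : e ∈ E) (hp : ∀ f ∈ E, e ≠ f → pr2 q e f ∈ T)
    (hB : 4 + E.length ≤ B) (h : Dv (SysC q) F 2 B k T) :
    Dv (SysC q) F 2 B (k + (E.length + 1)) (insert (Al q 1 e E) T) := by
  obtain ⟨l1, l2, rfl⟩ := List.append_of_mem he
  rw [List.nodup_middle, List.nodup_cons, List.mem_append, not_or] at hnd
  rw [List.length_append, List.length_cons] at hB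
  have h1 := dv_A0 e l1 (fun f hf => hp f (List.mem_append_left _ hf) fun hef => hnd.1.1 (hef ▸ hf)) (by omega) h
  have h2 := h1.step (sc_turn e l1 (Set.mem_insert _ _)) (Al_depth _ _ _) (by
    rw [Al_size, List.length_append, List.length_singleton]
    omega)
  have h3 := h2.mono le_rfl (ins_mono (T' := T) subset_rfl)
  have h4 := dv_A1 e (l1 ++ [e]) l2 (fun f hf => hp f (List.mem_append_right _ (List.mem_cons_of_mem _ hf))
    fun hef => hnd.1.2 (hef ▸ hf)) (by
      simp only [List.length_append, List.length_singleton]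
      omega) h3
  rw [List.append_assoc, List.singleton_append] at h4
  refine h4.mono ?_ subset_rfl
  rw [List.length_append, List.length_cons]
  omega

theorem dv_allD (E : List (Finset ℕ)) (hnd : E.Nodup) (hp : ∀ e ∈ E, ∀ f ∈ E, e ≠ f → pr2 q e f ∈ T)
    (hB : 4 + E.length ≤ B) (h : Dv (SysC q) F 2 B k T) : ∀ E' : List (Finset ℕ), (∀ e ∈ E', e ∈ E) →
    Dv (SysC q) F 2 B (k + E'.length * (E.length + 1)) (T ∪ {A | ∃ e ∈ E', A = Al q 1 e E}) := by
  intro E'
  induction E' with
  | nil =>
    intro _
    refine h.mono (by simp) ?_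
    intro A hA
    rcases hA with hA | ⟨e, he, _⟩
    · exact hA
    · exact absurd he (by simp)
  | cons e E' ih =>
    intro hE
    have h1 := ih fun e he => hE e (List.mem_cons_of_mem _ he)
    have h2 := dv_D E hnd e (hE e List.mem_cons_self) (fun f hf hne => Or.inl (hp e (hE e List.mem_cons_self) f hf hne)) hB h1
    refine h2.mono ?_ ?_
    · rw [List.length_cons]
      have : (E'.length + 1) * (E.length + 1) = E'.length * (E.length + 1) + (E.length + 1) := by ring
      omega
    · rintro A (hA | ⟨e', he', rfl⟩)
      · exact Set.mem_insert_of_mem _ (Or.inl hA)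
      · rcases List.mem_cons.1 he' with rfl | he'
        · exact Set.mem_insert _ _
        · exact Set.mem_insert_of_mem _ (Or.inr ⟨e', he', rfl⟩)

theorem dv_K (E : List (Finset ℕ)) (hD : ∀ e ∈ E, Al q 1 e E ∈ T) (hB : 2 + 2 * E.length ≤ B) (l : List (Finset ℕ))
    (hl : ∀ e ∈ l, e ∈ E) (hlen : l.length ≤ E.length) (h : Dv (SysC q) F 2 B k (insert (Kl q E l) T)) :
    Dv (SysC q) F 2 B (k + l.length) (insert (Kl q E []) T) := by
  induction l using List.reverseRecOn generalizing k with
  | nil => exact h
  | append_singleton l e ih =>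
    rw [List.length_append, List.length_singleton] at hlen
    have h1 := h.step (sc_res E l e (Set.mem_insert _ _) (Set.mem_insert_of_mem _ (hD e (hl e (by simp))))) (Kl_depth _ _) (by
      rw [Kl_size]
      omega)
    have h2 := ih (fun f hf => hl f (List.mem_append_left _ hf)) (by omega) (h1.mono le_rfl (ins_mono subset_rfl))
    exact h2.mono (by rw [List.length_append, List.length_singleton]; omega) subset_rfl

theorem clause_or (E : List (Finset ℕ)) : (clauseFm (E.map fun e => (zvar e, true)) : Fm q) = cnL true (vs q E) := by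
  unfold clauseFm vs V
  rw [List.map_map]
  congr 1

/-- The line `MOD_1(E)` for a point. -/
theorem dv_point (E : List (Finset ℕ)) (hnd : E.Nodup) (hp : ∀ e ∈ E, ∀ f ∈ E, e ≠ f → pr2 q e f ∈ T)
    (hc : (clauseFm (E.map fun e => (zvar e, true)) : Fm q) ∈ T) (hB : 4 + 2 * E.length ≤ B) (h : Dv (SysC q) F 2 B k T) :
    Dv (SysC q) F 2 B (k + (E.length * (E.length + 1) + E.length + 2)) (insert (mdL 1 (vs q E)) T) := by
  have h1 := dv_allD E hnd hp (by omega) h E fun e he => he
  set T' : Set (Fm q) := T ∪ {A | ∃ e ∈ E, A = Al q 1 e E} with hT'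
  have h2 := h1.step (sc_wk E (Or.inl (by rw [← clause_or]; exact hc))) (Kl_depth _ _) (by
    rw [Kl_size]
    omega)
  have h3 := dv_K E (fun e he => Or.inr ⟨e, he, rfl⟩) (by omega) E (fun e he => he) le_rfl h2
  have hok : (mdL 1 (vs q E)).depth ≤ 2 := (dep_md_any 1 E 0).trans (by omega)
  have h4 := h3.step (sc_one E (Set.mem_insert _ _)) hok (by
    rw [size_mdL, sum_vs]
    omega)
  refine h4.mono (by omega) ?_
  intro A hA
  rcases Set.mem_insert_iff.1 hA with h5 | h5
  · rw [h5]
    exact Set.mem_insert _ _
  · exact Set.mem_insert_of_mem _ (Set.mem_insert_of_mem _ (Or.inl h5))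

/-- The sum over the first `m` points. -/
theorem dv_total (EE : ℕ → List (Finset ℕ)) (nb N : ℕ) (hnb : ∀ i < N, (EE i).length ≤ nb) (hnd : ∀ i < N, (EE i).Nodup)
    (hp : ∀ i < N, ∀ e ∈ EE i, ∀ f ∈ EE i, e ≠ f → pr2 q e f ∈ T)
    (hc : ∀ i < N, (clauseFm ((EE i).map fun e => (zvar e, true)) : Fm q) ∈ T) (hB : 4 + 2 * nb ≤ B)
    (hB2 : 1 + N * nb ≤ B) (h : Dv (SysC q) F 2 B k T) (m : ℕ) (hm : m ≤ N) :
    Dv (SysC q) F 2 B (k + 1 + m * (nb * (nb + 1) + nb + 3)) (insert (mdL (m : ZMod q) (vs q ((List.range m).flatMap EE))) T) := by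
  have hlen : ∀ m ≤ N, ((List.range m).flatMap EE).length ≤ N * nb := by
    intro m hm
    refine (flatMap_len _ _ nb fun i hi => hnb i (lt_of_lt_of_le (List.mem_range.1 hi) hm)).trans ?_
    rw [List.length_range]
    exact Nat.mul_le_mul_right _ hm
  induction m with
  | zero =>
    have h1 := h.step (sc_emp) ((dep_md_any 0 [] 0).trans (by omega)) (by
      rw [size_mdL, sum_vs, List.length_nil]
      omega)
    rw [Nat.cast_zero, List.range_zero, List.flatMap_nil]
    exact h1.mono (by omega) subset_rfl
  | succ m ih =>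
    have h1 := ih (by omega)
    have hm' : m < N := by omega
    have h2 := dv_point (EE m) (hnd m hm') (T := insert (mdL (m : ZMod q) (vs q ((List.range m).flatMap EE))) T)
      (fun e he f hf hne => Set.mem_insert_of_mem _ (hp m hm' e he f hf hne)) (Set.mem_insert_of_mem _ (hc m hm'))
      (by have := hnb m hm'; omega) h1
    have h3 := h2.step (sc_sum (m : ZMod q) ((List.range m).flatMap EE) (EE m)
      (Set.mem_insert_of_mem _ (Set.mem_insert _ _)) (Set.mem_insert _ _)) ((dep_md_any _ _ 0).trans (by omega)) (by
        rw [size_mdL, sum_vs]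
        have h4 := hlen (m + 1) hm
        rw [List.range_succ, List.flatMap_append, List.flatMap_singleton] at h4
        omega)
    have h5 : (List.range (m + 1)).flatMap EE = (List.range m).flatMap EE ++ EE m := by
      rw [List.range_succ, List.flatMap_append, List.flatMap_singleton]
    rw [h5, Nat.cast_succ]
    refine h3.mono ?_ ?_
    · have h6 := hnb m hm'
      have h7 : (EE m).length * ((EE m).length + 1) ≤ nb * (nb + 1) := Nat.mul_le_mul h6 (by omega)
      have h8 : (m + 1) * (nb * (nb + 1) + nb + 3) = m * (nb * (nb + 1) + nb + 3) + (nb * (nb + 1) + nb + 3) := by ring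
      omega
    · intro A hA
      rcases Set.mem_insert_iff.1 hA with h6 | h6
      · rw [h6]
        exact Set.mem_insert _ _
      · exact Set.mem_insert_of_mem _ (Set.mem_insert_of_mem _ (Set.mem_insert_of_mem _ h6))

/-- Splitting a list at the occurrences of an element. -/
theorem split_occ {α : Type} [DecidableEq α] (e : α) (L : List α) :
    ∃ (g : List α) (gs : List (List α)), gs.length = L.count e ∧ L = g ++ gs.flatMap (fun g => e :: g) ∧
      L.filter (fun a => a ≠ e) = g ++ gs.flatten := by
  induction L with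
  | nil => exact ⟨[], [], rfl, rfl, rfl⟩
  | cons a L ih =>
    obtain ⟨g, gs, h1, h2, h3⟩ := ih
    by_cases hae : a = e
    · subst hae
      refine ⟨[], g :: gs, ?_, ?_, ?_⟩
      · rw [List.length_cons, h1, List.count_cons_self]
      · rw [List.nil_append, List.flatMap_cons, List.cons_append, ← h2]
      · rw [List.filter_cons_of_neg (by simp), h3, List.nil_append, List.flatten_cons]
    · refine ⟨a :: g, gs, ?_, ?_, ?_⟩
      · rw [h1, List.count_cons_of_ne hae]
      · rw [List.cons_append, ← h2]
      · rw [List.filter_cons_of_pos (by simpa using hae), h3, List.cons_append]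

theorem dv_rem (r : ZMod q) : ∀ (n : ℕ) (L : List (Finset ℕ)), L.length ≤ n → 1 + L.length ≤ B →
    (∀ e ∈ L, L.count e = q) → ∀ k : ℕ, Dv (SysC q) F 2 B k (insert (mdL r (vs q L)) T) →
    Dv (SysC q) F 2 B (k + n) (insert (mdL r (vs q [])) T) := by
  intro n
  induction n with
  | zero =>
    intro L hL _ _ k h
    have h0 : L = [] := List.length_eq_zero_iff.1 (by omega)
    subst h0
    exact h
  | succ n ih =>
    intro L hL hB hc k h
    match L, hL, hB, hc, h with
    | [], _, _, _, h => exact h.mono (by omega) subset_rfl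
    | e :: L, hL, hB, hc, h =>
      obtain ⟨g, gs, h1, h2, h3⟩ := split_occ e L
      have hce := hc e List.mem_cons_self
      rw [List.count_cons_self] at hce
      have hlen : (g :: gs).length = q := by rw [List.length_cons, h1, hce]
      have hflat : (e :: L) = (g :: gs).flatMap fun g => e :: g := by
        rw [List.flatMap_cons, List.cons_append, ← h2]
      have hfil : (g :: gs).flatten = L.filter (fun a => a ≠ e) := by rw [List.flatten_cons, h3]
      rw [List.length_cons] at hL hB
      have h4 : (L.filter (fun a => a ≠ e)).length ≤ L.length := List.length_filter_le _ _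
      have h5 := h.step (sc_rem r e (g :: gs) hlen (by rw [← hflat]; exact Set.mem_insert _ _))
        ((dep_md_any _ _ 0).trans (by omega)) (by
          rw [size_mdL, sum_vs, hfil]
          omega)
      rw [hfil] at h5
      have h6 := ih (L.filter (fun a => a ≠ e)) (by omega) (by omega) (by
        intro f hf
        rw [List.mem_filter] at hf
        have hfe : f ≠ e := by simpa using hf.2
        rw [List.count_filter (by simpa using hfe)]
        have h7 := hc f (List.mem_cons_of_mem _ hf.1)
        rwa [List.count_cons_of_ne (Ne.symm hfe)] at h7) (k + 1) (h5.mono le_rfl (ins_mono subset_rfl))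
      exact h6.mono (by omega) subset_rfl

end ACpSep
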