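import Pool.Agent.H65.AF.Final
import Pool.Agent.H56.AF.Cnf

/-!
helper88 (project MP_28250c_AS, separation of Frege systems with MOD_q and with MOD_p connectives): the rules of the system `SysQ q`
with `MOD_q`, and the statement.

Blocks: in the schemes the formula variables `mv (k * Q + j)`, `k = 0, 1, 2`, `j < Q`, stand for: the k-th variable has the value j.
-/

set_option autoImplicit false

namespace ACpSep

open ACpFrege ACpB

/-- The modulus of the Tseitin sums: `q` for `q ≠ 2`, and `4` for `q = 2`. -/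
def QQ (q : ℕ) : ℕ := if q = 2 then 4 else q

/-- The scheme of a clause. -/
def clS {q : ℕ} (C : List Lit) : Sch q :=
  .cn true C.length fun i => if (C.get i).2 then .mv (C.get i).1 else .neg (.mv (C.get i).1)

/-- `MOD_(q,r)` of a list of schemes. -/
def mdS {q : ℕ} (r : ZMod q) (l : List (Sch q)) : Sch q := .md r l.length l.get

/-- The number of the formula variable for: block `k` has the value `j`. -/
def bl (Q k : ℕ) (j : ZMod Q) : ℕ := k * Q + j.val

/-- Block `k` has exactly one value. -/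
def one (Q k : ℕ) : CNF :=
  ((vals Q).map fun j => (bl Q k j, true)) ::
    (vals Q).flatMap fun j => ((vals Q).filter fun j' => j'.val ≠ j.val).map fun j' => [(bl Q k j, false), (bl Q k j', false)]

/-- Block `k` has the value `c`. -/
def cst (Q k : ℕ) (c : ZMod Q) : CNF := [[(bl Q k c, true)]]

/-- Block 0 + block 1 = block 2. -/
def add (Q : ℕ) : CNF :=
  (vals Q).flatMap fun i => (vals Q).flatMap fun j => ((vals Q).filter fun k => k.val ≠ (i + j).val).map fun k =>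
    [(bl Q 0 i, false), (bl Q 1 j, false), (bl Q 2 k, false)]

/-- The members of a sum which represent `c` times the value of block `k` modulo `q`: the variable for the value `j` is taken
`c * (j mod q)` times. -/
def Dm {q : ℕ} (c Q k : ℕ) : List (Sch q) := (vals Q).flatMap fun j => List.replicate (c * (j.val % q)) (.mv (bl Q k j))

/-- The rules. `start`: value 0 gives `MOD_0` of minus block 0. -/
def rStart (q : ℕ) : Rule q := ⟨(one (QQ q) 0 ++ cst (QQ q) 0 0).map clS, mdS 0 (Dm (q - 1) (QQ q) 0)⟩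

/-- `step`: from `Γ - block 0 = 0` and block 0 + block 1 = block 2 infer `Γ + block 1 - block 2 = 0`. -/
def rStep (q : ℕ) : Rule q :=
  ⟨mdS 0 (.sq 0 :: Dm (q - 1) (QQ q) 0) :: (one (QQ q) 0 ++ one (QQ q) 1 ++ one (QQ q) 2 ++ add (QQ q)).map clS,
    mdS 0 (.sq 0 :: (Dm 1 (QQ q) 1 ++ Dm (q - 1) (QQ q) 2))⟩

/-- `end`: from `Γ - block 0 = 0` and block 0 = `c` infer `Γ = c`. -/
def rEnd (q : ℕ) (c : ℕ) : Rule q :=
  ⟨mdS 0 (.sq 0 :: Dm (q - 1) (QQ q) 0) :: (one (QQ q) 0 ++ cst (QQ q) 0 (c : ZMod (QQ q))).map clS, mdS (c : ZMod q) [.sq 0]⟩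

/-- `sum`: from `Γ = r` and `Δ = s` infer `Γ + Δ = r + s`. -/
def rSum (q : ℕ) (r s : ZMod q) : Rule q := ⟨[mdS r [.sq 0], mdS s [.sq 1]], mdS (r + s) [.sq 0, .sq 1]⟩

/-- `pair`: from `block 0 + Γ + block 1 + Δ = 1`, block 0 + block 1 = block 2 = 0 infer `Γ + Δ = 1`. -/
def rPair (q : ℕ) : Rule q :=
  ⟨mdS 1 (Dm 1 (QQ q) 0 ++ .sq 0 :: (Dm 1 (QQ q) 1 ++ [.sq 1])) ::
      (one (QQ q) 0 ++ one (QQ q) 1 ++ one (QQ q) 2 ++ add (QQ q) ++ cst (QQ q) 2 0).map clS,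
    mdS 1 [.sq 0, .sq 1]⟩

/-- `diag`: from `block 0 + Γ = 1` and block 0 = 0 infer `Γ = 1`. -/
def rDiag (q : ℕ) : Rule q :=
  ⟨mdS 1 (Dm 1 (QQ q) 0 ++ [.sq 0]) :: (one (QQ q) 0 ++ cst (QQ q) 0 0).map clS, mdS 1 [.sq 0]⟩

/-- `bot`: from `empty sum = 1` infer false. -/
def rBot (q : ℕ) : Rule q := ⟨[mdS 1 []], .cn true 0 fun i => i.elim0⟩

/-- The system. -/
def SysQ (q : ℕ) : List (Rule q) :=
  [rStart q, rStep q, rEnd q 0, rEnd q 1, rSum q 1 0, rPair q, rDiag q, rBot q]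

/-- The separation: for every prime `q` there are CNFs of polynomial size with clauses of at most `max q 4` literals which have
polynomial size refutations with lines of depth at most 2 in a fixed Frege system with `MOD_q` connectives, and which need
exponential size in every Frege system with `MOD_p` connectives of bounded depth, for every prime `p ≠ q`. -/
def StatementSep : Prop :=
  ∀ q : ℕ, q.Prime → ∃ (F : ℕ → CNF) (c : ℕ),
    (∀ n, (F n).Unsat ∧ (F n).size ≤ (n + 2) ^ c ∧ ∀ C ∈ F n, C.length ≤ max q 4 ∧ ∀ l ∈ C, l.1 < n) ∧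
    (∃ S : List (Rule q), (∀ R ∈ S, R.Sound) ∧ ∀ n, ∃ π : List (Fm q), Refutes S 2 (F n) π ∧ psize π ≤ (n + 2) ^ c) ∧
    ∀ p : ℕ, p.Prime → p ≠ q → ∀ S : List (Rule p), (∀ R ∈ S, R.Sound) → ∃ n₀ : ℕ, ∀ n ≥ n₀, ∀ d : ℕ,
      Real.log n ^ (d + 1) ≤ (n : ℝ) ^ ((1 : ℝ) / 5000) →
      ∀ π : List (Fm p), Refutes S d (F n) π → (2 : ℝ) ^ ((n : ℝ) ^ ((1 : ℝ) / (5000 * (d + 1)))) ≤ psize π

/-- The CNFs: `ASM M Q` with the largest `M` such that the number of variables is at most `n`; below that the empty clause. -/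
def FQ (q n : ℕ) : CNF := if 1 ≤ Nat.sqrt (n / (4 * QQ q)) then ASM (Nat.sqrt (n / (4 * QQ q))) (QQ q) else [[]]

/-- Row 1 (soundness). -/
def StSound : Prop := ∀ q : ℕ, q.Prime → ∀ R ∈ SysQ q, R.Sound

/-- Row 2 (upper bound). -/
def StUp : Prop := ∀ q : ℕ, q.Prime → ∃ c : ℕ, ∀ M : ℕ, 1 ≤ M →
  ∃ π : List (Fm q), Refutes (SysQ q) 2 (ASM M (QQ q)) π ∧ psize π ≤ c * M ^ 10

/-- Row 3 (lower bound). -/
def StLow : Prop := ∀ q : ℕ, q.Prime → ∀ p : ℕ, p.Prime → p ≠ q → ∀ S : List (Rule p), (∀ R ∈ S, R.Sound) → ∃ n₀ : ℕ, ∀ n ≥ n₀, ∀ d : ℕ,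
      Real.log n ^ (d + 1) ≤ (n : ℝ) ^ ((1 : ℝ) / 5000) →
      ∀ π : List (Fm p), Refutes S d (FQ q n) π → (2 : ℝ) ^ ((n : ℝ) ^ ((1 : ℝ) / (5000 * (d + 1)))) ≤ psize π

end ACpSep
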