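import Pool.Agent.H88.AS.Defs

/-!
helper88 (project MP_28250c_AS): instances of the rules, and a framework for building refutations.
-/

set_option autoImplicit false

namespace ACpSep

open ACpFrege ACpB

theorem ofFn_get_map {α β : Type} (l : List α) (f : α → β) : List.ofFn (fun i : Fin l.length => f (l.get i)) = l.map f := by
  conv_rhs => rw [← List.ofFn_get l, List.map_ofFn]
  rfl

section dv

variable {p : ℕ}

/-- A partial proof with lines of depth at most `d` and size at most `B`. -/
def Val (S : List (Rule p)) (F : CNF) (d B : ℕ) (π : List (Fm p)) : Prop :=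
  (∀ A ∈ π, A.depth ≤ d ∧ A.size ≤ B) ∧ ∀ (i : ℕ) (h : i < π.length), Step S F (π.take i) π[i]

theorem Step.mono {S : List (Rule p)} {F : CNF} {l l' : List (Fm p)} (h : ∀ A ∈ l, A ∈ l') {A : Fm p} (hs : Step S F l A) :
    Step S F l' A := by
  rcases hs with hs | ⟨R, hR, s, G, h1, h2⟩
  · exact Or.inl hs
  · exact Or.inr ⟨R, hR, s, G, h1, fun P hP B hB => h _ (h2 P hP B hB)⟩

theorem Val.snoc {S : List (Rule p)} {F : CNF} {d B : ℕ} {π : List (Fm p)} (h : Val S F d B π) {A : Fm p}
    (hs : Step S F π A) (hd : A.depth ≤ d) (hB : A.size ≤ B) : Val S F d B (π ++ [A]) := by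
  refine ⟨?_, ?_⟩
  · intro A' hA'
    rcases List.mem_append.1 hA' with h' | h'
    · exact h.1 A' h'
    · rw [List.mem_singleton] at h'
      subst h'
      exact ⟨hd, hB⟩
  · intro i hi
    by_cases hi' : i < π.length
    · rw [List.getElem_append_left hi', List.take_append_of_le_length hi'.le]
      exact h.2 i hi'
    · have hi2 : i = π.length := by
        rw [List.length_append, List.length_singleton] at hi
        omega
      subst hi2
      rw [List.getElem_append_right le_rfl, List.take_left]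
      simpa using hs

/-- All formulas of `T` can be derived together in at most `k` lines. -/
def Dv (S : List (Rule p)) (F : CNF) (d B k : ℕ) (T : Set (Fm p)) : Prop :=
  ∃ π : List (Fm p), Val S F d B π ∧ π.length ≤ k ∧ ∀ A ∈ T, A ∈ π

/-- A step from the formulas of `T`. -/
def StepT (S : List (Rule p)) (F : CNF) (T : Set (Fm p)) (A : Fm p) : Prop :=
  (∃ C ∈ F, A = clauseFm C) ∨
  ∃ R ∈ S, ∃ (s : ℕ → Fm p) (G : ℕ → List (Fm p)), R.concl.inst s G = [A] ∧ ∀ P ∈ R.prem, ∀ B ∈ P.inst s G, B ∈ T

variable {S : List (Rule p)} {F : CNF} {d B k : ℕ} {T : Set (Fm p)}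

theorem Dv.step (h : Dv S F d B k T) {A : Fm p} (hs : StepT S F T A) (hd : A.depth ≤ d) (hB : A.size ≤ B) :
    Dv S F d B (k + 1) (insert A T) := by
  obtain ⟨π, h1, h2, h3⟩ := h
  refine ⟨π ++ [A], h1.snoc ?_ hd hB, ?_, ?_⟩
  · rcases hs with hs | ⟨R, hR, s, G, h4, h5⟩
    · exact Or.inl hs
    · exact Or.inr ⟨R, hR, s, G, h4, fun P hP B hB => h3 _ (h5 P hP B hB)⟩
  · rw [List.length_append, List.length_singleton]
    omega
  · intro A' hA'
    rcases Set.mem_insert_iff.1 hA' with h' | h'
    · subst h'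
      simp
    · exact List.mem_append_left _ (h3 A' h')

theorem Dv.mono (h : Dv S F d B k T) {k' : ℕ} (hk : k ≤ k') {T' : Set (Fm p)} (hT : T' ⊆ T) : Dv S F d B k' T' := by
  obtain ⟨π, h1, h2, h3⟩ := h
  exact ⟨π, h1, h2.trans hk, fun A hA => h3 A (hT hA)⟩

theorem Dv.zero : Dv S F d B 0 ∅ :=
  ⟨[], ⟨fun A hA => absurd hA (by simp), fun i h => absurd h (by simp)⟩, le_rfl, fun A hA => absurd hA (by simp)⟩

theorem Dv.refutes (h : Dv S F d B k T) (hbot : cnL true [] ∈ T) : ∃ π : List (Fm p), Refutes S d F π ∧ psize π ≤ k * B := by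
  obtain ⟨π, h1, h2, h3⟩ := h
  refine ⟨π, ⟨fun A hA => (h1.1 A hA).1, h1.2, h3 _ hbot⟩, ?_⟩
  have h4 : psize π ≤ π.length * B := by
    unfold psize
    have h5 : ∀ l : List (Fm p), (∀ A ∈ l, A.size ≤ B) → (l.map Fm.size).sum ≤ l.length * B := by
      intro l
      induction l with
      | nil => intro _; simp
      | cons A l ih =>
        intro hl
        rw [List.map_cons, List.sum_cons, List.length_cons]
        have h6 := hl A List.mem_cons_self
        have h7 := ih fun A' hA' => hl A' (List.mem_cons_of_mem _ hA')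
        calc A.size + (l.map Fm.size).sum ≤ B + l.length * B := Nat.add_le_add h6 h7
          _ = (l.length + 1) * B := by ring
    exact h5 π fun A hA => (h1.1 A hA).2
  exact h4.trans (Nat.mul_le_mul_right B h2)

end dv

section sizes

variable {p : ℕ}

theorem size_cnL (k : Bool) (l : List (Fm p)) : (cnL k l).size = 1 + (l.map Fm.size).sum := by
  unfold cnL
  rw [Fm.size, ← Fin.sum_ofFn]
  congr 2
  exact ofFn_get_map l Fm.size

theorem size_mdL (r : ZMod p) (l : List (Fm p)) : (mdL r l).size = 1 + (l.map Fm.size).sum := by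
  unfold mdL
  rw [Fm.size, ← Fin.sum_ofFn]
  congr 2
  exact ofFn_get_map l Fm.size

theorem dep_mdL (r : ZMod p) (l : List (Fm p)) (h : ∀ A ∈ l, ∃ x, A = .var x) : (mdL r l).depth ≤ 1 := by
  unfold Fm.depth mdL
  rw [Fm.dep]
  have : (Finset.univ.sup fun i => (l.get i).dep 0) = 0 := by
    rw [← Nat.bot_eq_zero, Finset.sup_eq_bot_iff]
    intro i _
    obtain ⟨x, hx⟩ := h (l.get i) (List.get_mem l i)
    rw [hx, Fm.dep]
    rfl
  rw [this]

theorem dep_lit (l : Lit) (c : ℕ) : (if l.2 then (Fm.var l.1 : Fm p) else .neg (.var l.1)).dep c ≤ 1 := by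
  by_cases h : l.2 = true
  · rw [if_pos h, Fm.dep]
    omega
  · rw [if_neg h]
    have h1 : (Fm.var l.1 : Fm p).dep 1 = 0 := by rw [Fm.dep]
    rw [Fm.dep, h1]
    split_ifs <;> omega

theorem dep_clauseFm (C : List Lit) : (clauseFm (p := p) C).depth ≤ 2 := by
  unfold clauseFm Fm.depth cnL
  rw [Fm.dep]
  have h : ∀ c : ℕ, (Finset.univ.sup fun i => ((C.map fun l : Lit => if l.2 then (Fm.var l.1 : Fm p) else .neg (.var l.1)).get i).dep
      c) ≤ 1 := by
    intro c
    refine Finset.sup_le fun i _ => ?_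
    have h1 := List.get_mem (C.map fun l : Lit => if l.2 then (Fm.var l.1 : Fm p) else .neg (.var l.1)) i
    rw [List.mem_map] at h1
    obtain ⟨l, _, h2⟩ := h1
    rw [← h2]
    exact dep_lit l c
  have h1 := h (if true = true then 2 else 3)
  have h2 : (if 0 = (if true = true then 2 else 3) then 0 else 1) ≤ 1 := by
    split_ifs <;> omega
  exact Nat.add_le_add h2 h1

theorem size_clauseFm (C : List Lit) : (clauseFm (p := p) C).size ≤ 1 + 2 * C.length := by
  unfold clauseFm
  rw [size_cnL, List.map_map]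
  have h : ∀ l : List Lit, (l.map (Fm.size ∘ fun l => if l.2 then (Fm.var l.1 : Fm p) else .neg (.var l.1))).sum ≤
      2 * l.length := by
    intro l
    induction l with
    | nil => simp
    | cons a l ih =>
      rw [List.map_cons, List.sum_cons, List.length_cons]
      have h2 : (Fm.size ∘ fun l : Lit => if l.2 then (Fm.var l.1 : Fm p) else .neg (.var l.1)) a ≤ 2 := by
        simp only [Function.comp_apply]
        split_ifs <;> simp [Fm.size]
      omega
  have := h C
  omega

end sizes

section inst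

variable {q : ℕ}

theorem inst_mdS (s : ℕ → Fm q) (G : ℕ → List (Fm q)) (r : ZMod q) (l : List (Sch q)) :
    (mdS r l).inst s G = [mdL r (l.flatMap (Sch.inst s G))] := by
  unfold mdS
  rw [Sch.inst, List.flatMap_def]
  congr 3
  exact ofFn_get_map l (Sch.inst s G)

theorem inst_clS (σ : ℕ → ℕ) (G : ℕ → List (Fm q)) (C : List Lit) :
    (clS (q := q) C).inst (fun i => .var (σ i)) G = [clauseFm (C.map fun l => (σ l.1, l.2))] := by
  unfold clS clauseFm
  rw [Sch.inst]
  congr 2
  have h1 : (List.ofFn fun i : Fin C.length =>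
      (if (C.get i).2 = true then (Sch.mv (C.get i).1 : Sch q) else .neg (.mv (C.get i).1)).inst (fun i => .var (σ i)) G) =
      C.map fun l => [if l.2 then (Fm.var (σ l.1) : Fm q) else .neg (.var (σ l.1))] := by
    conv_rhs => rw [← List.ofFn_get C, List.map_ofFn]
    congr 1
    funext i
    simp only [Function.comp_apply]
    split_ifs
    · rw [Sch.inst]
    · rw [Sch.inst, Sch.inst]
      rfl
  rw [h1, List.map_map]
  have h2 : ∀ l : List Lit, (l.map fun l => [if l.2 then (Fm.var (σ l.1) : Fm q) else .neg (.var (σ l.1))]).flatten =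
      l.map ((fun l : Lit => if l.2 = true then (Fm.var l.1 : Fm q) else (Fm.var l.1).neg) ∘ fun l => (σ l.1, l.2)) := by
    intro l
    induction l with
    | nil => rfl
    | cons a l ih =>
      rw [List.map_cons, List.flatten_cons, ih, List.map_cons]
      rfl
  rw [h2]

/-- The variables: block `k` is the variable `N k`. -/
def sg (Q : ℕ) {M : ℕ} (N : ℕ → Vr M) (i : ℕ) : ℕ := bvar Q (N (i / Q)) ((i % Q : ℕ) : ZMod Q)

theorem sg_bl {Q M : ℕ} [NeZero Q] (N : ℕ → Vr M) (k : ℕ) (j : ZMod Q) : sg Q N (bl Q k j) = bvar Q (N k) j := by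
  unfold sg bl
  have h1 := ZMod.val_lt j
  have h2 : (k * Q + j.val) / Q = k := by
    rw [Nat.mul_comm, Nat.mul_add_div (NeZero.pos Q), Nat.div_eq_of_lt h1, Nat.add_zero]
  have h3 : (k * Q + j.val) % Q = j.val := by
    rw [Nat.mul_comm, Nat.mul_add_mod, Nat.mod_eq_of_lt h1]
  rw [h2, h3, ZMod.natCast_zmod_val]

theorem one_map {Q M : ℕ} [NeZero Q] (N : ℕ → Vr M) (k : ℕ) :
    (one Q k).map (fun C => C.map fun l => (sg Q N l.1, l.2)) = oneC Q (N k) := by
  unfold one oneC
  rw [List.map_cons, List.map_map, List.map_flatMap]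
  congr 1
  · refine List.map_congr_left fun j _ => ?_
    simp only [Function.comp_apply, sg_bl]
  · refine List.flatMap_congr fun j _ => ?_
    rw [List.map_map]
    refine List.map_congr_left fun j' _ => ?_
    simp only [Function.comp_apply, List.map_cons, List.map_nil, sg_bl]

theorem cst_map {Q M : ℕ} [NeZero Q] (N : ℕ → Vr M) (k : ℕ) (c : ZMod Q) :
    (cst Q k c).map (fun C => C.map fun l => (sg Q N l.1, l.2)) = cstC Q (N k) c := by
  unfold cst cstC
  simp only [List.map_cons, List.map_nil, sg_bl]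

theorem add_map {Q M : ℕ} [NeZero Q] (N : ℕ → Vr M) :
    (add Q).map (fun C => C.map fun l => (sg Q N l.1, l.2)) = addC Q (N 0) (N 1) (N 2) := by
  unfold add addC
  rw [List.map_flatMap]
  refine List.flatMap_congr fun i _ => ?_
  rw [List.map_flatMap]
  refine List.flatMap_congr fun j _ => ?_
  rw [List.map_map]
  refine List.map_congr_left fun k _ => ?_
  simp only [Function.comp_apply, List.map_cons, List.map_nil, sg_bl]

/-- The members of a sum which represent `c` times the value of `ν` modulo `q`. -/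
def DV {q M : ℕ} (c Q : ℕ) (ν : Vr M) : List (Fm q) :=
  (vals Q).flatMap fun j => List.replicate (c * (j.val % q)) (.var (bvar Q ν j))

theorem Dm_inst {Q M : ℕ} [NeZero Q] (N : ℕ → Vr M) (G : ℕ → List (Fm q)) (c k : ℕ) :
    (Dm (q := q) c Q k).flatMap (Sch.inst (fun i => .var (sg Q N i)) G) = DV c Q (N k) := by
  unfold Dm DV
  rw [List.flatMap_assoc]
  refine List.flatMap_congr fun j _ => ?_
  have h : ∀ m : ℕ, (List.replicate m (Sch.mv (bl Q k j) : Sch q)).flatMap (Sch.inst (fun i => .var (sg Q N i)) G) =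
      List.replicate m (Fm.var (bvar Q (N k) j)) := by
    intro m
    induction m with
    | zero => rfl
    | succ m ih =>
      rw [List.replicate_succ, List.flatMap_cons, ih, List.replicate_succ, Sch.inst, sg_bl]
      rfl
  rw [h]

theorem DV_var {M : ℕ} (c Q : ℕ) (ν : Vr M) : ∀ A ∈ DV (q := q) c Q ν, ∃ x, A = .var x := by
  intro A hA
  unfold DV at hA
  rw [List.mem_flatMap] at hA
  obtain ⟨j, _, hA⟩ := hA
  exact ⟨_, (List.mem_replicate.1 hA).2⟩

theorem DV_length {M : ℕ} (hq : 0 < q) (c Q : ℕ) (ν : Vr M) : (DV (q := q) c Q ν).length ≤ Q * (c * q) := by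
  unfold DV
  rw [List.length_flatMap]
  have h : ∀ l : List (ZMod Q), (l.map fun j => (List.replicate (c * (j.val % q)) (Fm.var (bvar Q ν j) : Fm q)).length).sum ≤
      l.length * (c * q) := by
    intro l
    induction l with
    | nil => simp
    | cons a l ih =>
      rw [List.map_cons, List.sum_cons, List.length_cons, List.length_replicate]
      have h1 : c * (a.val % q) ≤ c * q := Nat.mul_le_mul_left c (Nat.mod_lt _ hq).le
      calc c * (a.val % q) + _ ≤ c * q + l.length * (c * q) := Nat.add_le_add h1 ih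
        _ = (l.length + 1) * (c * q) := by ring
  refine (h (vals Q)).trans ?_
  have : (vals Q).length = Q := by simp [vals]
  rw [this]

theorem size_vars (l : List (Fm q)) (h : ∀ A ∈ l, ∃ x, A = .var x) : (l.map Fm.size).sum = l.length := by
  induction l with
  | nil => rfl
  | cons a l ih =>
    rw [List.map_cons, List.sum_cons, List.length_cons, ih fun A hA => h A (List.mem_cons_of_mem _ hA)]
    obtain ⟨x, hx⟩ := h a List.mem_cons_self
    rw [hx, Fm.size]
    omega

end inst

end ACpSep
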