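import Pool.Agent.H88.AS.NumK
import Pool.Agent.H88.AS.Defs
import Pool.Agent.H98.AF.AOut
import Pool.Agent.H56.AF.BMain
import Pool.Agent.H56.AF.Wid

/-!
helper30 (project MP_28250c_AS): the lower bound for the single CNF `ASM M Q`, `Q = QQ q`, and the properties of `FQ`.
-/

set_option autoImplicit false

namespace ACpSep

open ACpFrege ACpB

theorem QQ_ge30 {q : ℕ} (hq : q.Prime) : 3 ≤ QQ q := by
  unfold QQ
  split_ifs with h
  · norm_num
  · have := hq.two_le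
    omega

theorem QQ_le (q : ℕ) : max (QQ q) 3 ≤ max q 4 := by
  unfold QQ
  split_ifs with h
  · simp
  · omega

theorem QQ_coprime {p q : ℕ} (hq : q.Prime) (hp : p.Prime) (hpq : p ≠ q) : (QQ q).Coprime p := by
  have h1 : Nat.Coprime q p := (Nat.coprime_primes hq hp).2 (fun h => hpq h.symm)
  unfold QQ
  split_ifs with h
  · rw [h] at h1
    have := Nat.Coprime.pow_left 2 h1
    norm_num at this
    exact this
  · exact h1

private theorem nv_le {n M Q : ℕ} (hQ : 1 ≤ Q) (hM : 1 ≤ M) (h : M * M ≤ n / (4 * Q)) : nv M Q ≤ n := by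
  unfold nv
  have h1 : M * M * (4 * Q) ≤ n := (Nat.le_div_iff_mul_le (by omega)).1 h
  have h2 : M * M + M * (M + 1) ≤ 3 * (M * M) := by nlinarith
  calc (M * M + M * (M + 1)) * Q ≤ 3 * (M * M) * Q := Nat.mul_le_mul_right _ h2
    _ ≤ M * M * (4 * Q) := by nlinarith [Nat.zero_le (M * M * Q)]
    _ ≤ n := h1

/-- The properties of the CNFs. -/
theorem FQ_ok (q : ℕ) (hq : q.Prime) : ∃ c : ℕ, ∀ n, (FQ q n).Unsat ∧ (FQ q n).size ≤ (n + 2) ^ c ∧
    ∀ C ∈ FQ q n, C.length ≤ max q 4 ∧ ∀ l ∈ C, l.1 < n := by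
  have hQ := QQ_ge30 hq
  have : NeZero (QQ q) := ⟨by omega⟩
  refine ⟨50 * (QQ q + 1) ^ 3 + 2, fun n => ?_⟩
  by_cases h : 1 ≤ Nat.sqrt (n / (4 * QQ q))
  · unfold FQ
    rw [if_pos h]
    set M := Nat.sqrt (n / (4 * QQ q)) with hM
    have hMM : M * M ≤ n / (4 * QQ q) := Nat.sqrt_le _
    have hMn : M ≤ n := by nlinarith [Nat.div_le_self n (4 * QQ q)]
    refine ⟨ASM_unsat (by omega) h, ?_, ?_⟩
    · refine ASM_size.trans ?_
      have h1 : (M + 1) ^ 2 ≤ (n + 2) ^ 2 := Nat.pow_le_pow_left (by omega) 2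
      have h2 : 50 * (QQ q + 1) ^ 3 ≤ (n + 2) ^ (50 * (QQ q + 1) ^ 3) :=
        (Nat.lt_two_pow_self).le.trans (Nat.pow_le_pow_left (by omega) _)
      rw [pow_add]
      exact Nat.mul_le_mul h2 h1
    · intro C hC
      refine ⟨(ASM_width C hC).trans (QQ_le q), fun l hl => ?_⟩
      exact lt_of_lt_of_le (ASM_vars C hC l hl) (nv_le (by omega) h hMM)
  · unfold FQ
    rw [if_neg h]
    refine ⟨?_, ?_, ?_⟩
    · intro a
      exact ⟨[], by simp, by simp⟩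
    · simp only [CNF.size, List.map_cons, List.map_nil, List.length_nil, List.sum_cons, List.sum_nil]
      exact Nat.one_le_pow _ _ (by omega)
    · intro D hD
      simp only [List.mem_singleton] at hD
      subst hD
      simp

/-- The lower bound from Parts A, B and C. -/
theorem stLow_of (hW : ∀ (Q : ℕ) (_ : 3 ≤ Q) [NeZero Q], PartW Q) : StLow := by
  intro q hq p hp hpq S hS
  have : Fact p.Prime := ⟨hp⟩
  have hQ := QQ_ge30 hq
  have : NeZero (QQ q) := ⟨by omega⟩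
  obtain ⟨C0, hC0⟩ := outAU p S hS (max q 4)
  obtain ⟨M0, hM0⟩ := hW (QQ q) hQ
  obtain ⟨n₀, hn₀⟩ := num_exK (4 * QQ q) p (C0 + 1) M0 (by omega) hp.one_lt.le (by omega)
  refine ⟨n₀, fun n hn d hd π hπ => ?_⟩
  obtain ⟨k1, k2, R, L, t, N, k3, k4, k5, k6, k7, k8⟩ := hn₀ n hn d hd
  have hFF : FQ q n = ASM (Nat.sqrt (n / (4 * QQ q))) (QQ q) := by
    unfold FQ
    rw [if_pos k2]
  obtain ⟨A, x, hWit, hcard⟩ := hM0 _ k1 R k3
  have hs : HasSlow p (nv (Nat.sqrt (n / (4 * QQ q))) (QQ q)) (FQ q n) L (Nat.sqrt (n / (4 * QQ q)) ^ 2) := by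
    rw [hFF]
    exact partB p hQ (QQ_coprime hq hp hpq) k2 (by omega : 2 * L + 3 ≤ R) hWit hcard
  have hv : ∀ D ∈ FQ q n, D.length ≤ max q 4 ∧ ∀ l ∈ D, l.1 < nv (Nat.sqrt (n / (4 * QQ q))) (QQ q) := by
    intro D hD
    rw [hFF] at hD
    exact ⟨(ASM_width D hD).trans (QQ_le q), ASM_vars D hD⟩
  have hfin := hC0 d _ (FQ q n) L (Nat.sqrt (n / (4 * QQ q)) ^ 2) N t hs hv k5
    (le_trans (Nat.mul_le_mul_right _ (Nat.le_succ C0)) k6)
    (lt_of_le_of_lt (Nat.mul_le_mul_right _ (Nat.mul_le_mul_right _ (Nat.mul_le_mul_left _ (Nat.le_succ C0)))) k8) π hπ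
  exact k7.trans (by exact_mod_cast hfin.le)

end ACpSep
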