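import Mathlib

/-!
helper30 (MP_28250c_AS): the numerical part, with a general constant `K` instead of 100 (adapted from H65/AF/Num.lean of helper65 and
helper7).
-/

set_option autoImplicit false

namespace ACpSep

private theorem ev_rpow {a : ℝ} (ha : 0 < a) (B : ℝ) : ∃ n0 : ℕ, ∀ n ≥ n0, B ≤ (n : ℝ) ^ a := by
  have h := ((tendsto_rpow_atTop ha).comp tendsto_natCast_atTop_atTop).eventually_ge_atTop B
  obtain ⟨n0, h0⟩ := Filter.eventually_atTop.mp h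
  exact ⟨n0, fun n hn => h0 n hn⟩

private theorem ev_log (B : ℝ) : ∃ n0 : ℕ, ∀ n ≥ n0, B ≤ Real.log (n : ℝ) := by
  have h := (Real.tendsto_log_atTop.comp tendsto_natCast_atTop_atTop).eventually_ge_atTop B
  obtain ⟨n0, h0⟩ := Filter.eventually_atTop.mp h
  exact ⟨n0, fun n hn => h0 n hn⟩

/-- The exponential inequality. -/
private theorem expo {C : ℕ} (hC : 1 ≤ C) {x y : ℝ} (hx : 1 ≤ x) (hy1 : 1 ≤ y) (hxy : Real.log x ≤ y)
    (hY : Real.log (2 * C) + 2 + Real.log 2 < y * Real.log (3 / 2)) {N M t : ℕ} (hN : (N : ℝ) ≤ 2 ^ y + 1)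
    (hM : (M : ℝ) ≤ x) (ht : y ^ 2 ≤ t) : N * C * M ^ 2 * 2 ^ t < 3 ^ t := by
  have hC' : (1 : ℝ) ≤ C := by exact_mod_cast hC
  have hx0 : 0 < x := by linarith
  have hl32 : 0 < Real.log (3 / 2) := Real.log_pos (by norm_num)
  have hlC : 0 ≤ Real.log (2 * C) := Real.log_nonneg (by linarith)
  have hkey : 2 * (C : ℝ) * x ^ 2 * 2 ^ y < (3 / 2) ^ t := by
    have hpos : 0 < 2 * (C : ℝ) * x ^ 2 * 2 ^ y := by positivity
    rw [← Real.log_lt_log_iff hpos (by positivity)]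
    rw [Real.log_mul (by positivity) (by positivity), Real.log_mul (by positivity) (by positivity), Real.log_pow,
      Real.log_rpow (by norm_num), Real.log_pow]
    have h1 : y ^ 2 * Real.log (3 / 2) ≤ t * Real.log (3 / 2) := mul_le_mul_of_nonneg_right ht hl32.le
    have h2 : y * (Real.log (2 * C) + 2 + Real.log 2) < y * (y * Real.log (3 / 2)) :=
      mul_lt_mul_of_pos_left hY (by linarith)
    have h3 : Real.log (2 * C) ≤ y * Real.log (2 * C) := by nlinarith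
    push_cast
    nlinarith
  have h2y : (1 : ℝ) ≤ 2 ^ y := Real.one_le_rpow (by norm_num) (by linarith)
  have hM2 : (M : ℝ) ^ 2 ≤ x ^ 2 := pow_le_pow_left₀ (Nat.cast_nonneg _) hM 2
  have hN2 : (N : ℝ) ≤ 2 * 2 ^ y := by linarith
  have h5 : (N : ℝ) * C * M ^ 2 ≤ 2 * (C : ℝ) * x ^ 2 * 2 ^ y := by
    calc (N : ℝ) * C * M ^ 2 ≤ (2 * 2 ^ y) * C * x ^ 2 := by gcongr
      _ = _ := by ring
  have h6 : (N : ℝ) * C * M ^ 2 * 2 ^ t < 3 ^ t := by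
    calc (N : ℝ) * C * M ^ 2 * 2 ^ t < (3 / 2) ^ t * 2 ^ t :=
          mul_lt_mul_of_pos_right (h5.trans_lt hkey) (by positivity)
      _ = 3 ^ t := by rw [← mul_pow]; norm_num
  exact_mod_cast h6

/-- The length. -/
private theorem lens {d p C : ℕ} (hp : 1 ≤ p) {x y : ℝ} (hx : 1 ≤ x) (hy : y = x ^ ((1 : ℝ) / (5000 * (d + 1)))) (hy1 : 1 ≤ y)
    (hlp : 4 * (p : ℝ) ^ 2 ≤ y) {t : ℕ} (ht : (t : ℝ) ≤ y ^ 2 + 1) : (C : ℝ) * (p * t) ^ (d + 2) ≤ C * x ^ ((1 : ℝ) / 1000) := by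
  have hx0 : 0 < x := by linarith
  have hp' : (1 : ℝ) ≤ p := by exact_mod_cast hp
  have ht2 : (t : ℝ) ≤ 2 * y ^ 2 := by nlinarith
  have hpow : y ^ (d + 1) = x ^ ((1 : ℝ) / 5000) := by
    rw [hy, ← Real.rpow_natCast, ← Real.rpow_mul hx0.le]
    congr 1
    push_cast
    have : ((d : ℝ) + 1) ≠ 0 := by positivity
    field_simp
  have h1 : ((p : ℝ) * t) ^ (d + 2) ≤ (y ^ (d + 1)) ^ 5 := by
    calc ((p : ℝ) * t) ^ (d + 2) ≤ (p * (2 * y ^ 2)) ^ (d + 2) := by gcongr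
      _ = (2 * p) ^ (d + 2) * y ^ (2 * (d + 2)) := by
        rw [show (p : ℝ) * (2 * y ^ 2) = (2 * p) * y ^ 2 by ring, mul_pow, ← pow_mul]
      _ ≤ (2 * p) ^ (2 * (d + 1)) * y ^ (4 * (d + 1)) := by
        refine mul_le_mul ?_ ?_ (by positivity) (by positivity)
        · exact pow_le_pow_right₀ (by linarith) (by omega)
        · exact pow_le_pow_right₀ hy1 (by omega)
      _ = ((4 * (p : ℝ) ^ 2) ^ (d + 1)) * y ^ (4 * (d + 1)) := by
        rw [pow_mul]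
        congr 2
        ring
      _ ≤ y ^ (d + 1) * y ^ (4 * (d + 1)) := by gcongr
      _ = (y ^ (d + 1)) ^ 5 := by ring
  have h2 : (y ^ (d + 1)) ^ 5 = x ^ ((1 : ℝ) / 1000) := by
    rw [hpow, ← Real.rpow_natCast, ← Real.rpow_mul hx0.le]
    norm_num
  rw [h2] at h1
  exact mul_le_mul_of_nonneg_left h1 (Nat.cast_nonneg _)

private theorem Mbound {K : ℕ} (hK : 1 ≤ K) (n : ℕ) : Real.sqrt n / K - 1 ≤ (Nat.sqrt (n / K) : ℝ) := by
  have h1 : n / K < (Nat.sqrt (n / K) + 1) * (Nat.sqrt (n / K) + 1) := Nat.lt_succ_sqrt _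
  have h2 : n < K * ((Nat.sqrt (n / K) + 1) * (Nat.sqrt (n / K) + 1)) := by
    rw [Nat.div_lt_iff_lt_mul (by omega)] at h1
    rwa [mul_comm K]
  have hK1 : (1 : ℝ) ≤ K := by exact_mod_cast hK
  have h3 : (n : ℝ) ≤ (K * ((Nat.sqrt (n / K) : ℝ) + 1)) ^ 2 := by
    have h4 : (n : ℝ) < ((K * ((Nat.sqrt (n / K) + 1) * (Nat.sqrt (n / K) + 1)) : ℕ) : ℝ) := by exact_mod_cast h2
    push_cast at h4
    have h5 : (0 : ℝ) ≤ ((Nat.sqrt (n / K) : ℝ) + 1) * ((Nat.sqrt (n / K) : ℝ) + 1) := by positivity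
    nlinarith [mul_le_mul_of_nonneg_right hK1 h5]
  have h4 : Real.sqrt n ≤ K * ((Nat.sqrt (n / K) : ℝ) + 1) := by
    rw [← Real.sqrt_sq (show (0 : ℝ) ≤ K * ((Nat.sqrt (n / K) : ℝ) + 1) by positivity)]
    exact Real.sqrt_le_sqrt h3
  rw [sub_le_iff_le_add, div_le_iff₀ (by linarith)]
  linarith

/-- All parameters. -/
theorem num_exK (K p C M₀ : ℕ) (hK : 1 ≤ K) (hp : 1 ≤ p) (hC : 1 ≤ C) : ∃ n₀ : ℕ, ∀ n ≥ n₀, ∀ d : ℕ,
    Real.log n ^ (d + 1) ≤ (n : ℝ) ^ ((1 : ℝ) / 5000) →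
    M₀ ≤ Nat.sqrt (n / K) ∧ 1 ≤ Nat.sqrt (n / K) ∧ ∃ R L t N : ℕ, R ^ 400 ≤ Nat.sqrt (n / K) ∧ 2 * L + 8 ≤ R ∧ 1 ≤ t ∧
      C * (p * t) ^ (d + 2) ≤ L ∧ (2 : ℝ) ^ ((n : ℝ) ^ ((1 : ℝ) / (5000 * (d + 1)))) ≤ N ∧
      N * C * Nat.sqrt (n / K) ^ 2 * 2 ^ t < 3 ^ t := by
  have hl32 : 0 < Real.log (3 / 2) := Real.log_pos (by norm_num)
  obtain ⟨n1, hn1⟩ := ev_log (max (max 1 (4 * (p : ℝ) ^ 2)) ((Real.log (2 * C) + 2 + Real.log 2 + 1) / Real.log (3 / 2)))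
  obtain ⟨n2, hn2⟩ := ev_rpow (show (0 : ℝ) < 1 / 4000 by norm_num) (2 * (K : ℝ) * (4 * C + 24))
  obtain ⟨n4, hn4⟩ := ev_rpow (show (0 : ℝ) < 1 / 2 by norm_num) (2 * K * (M₀ + 2))
  refine ⟨max (max n1 n2) (max n4 1), ?_⟩
  intro n hn d hd
  have g1 := hn1 n (by omega)
  have g2 := hn2 n (by omega)
  have g4 := hn4 n (by omega)
  have hn0 : 1 ≤ n := by omega
  have hx1 : (1 : ℝ) ≤ n := by exact_mod_cast hn0
  set x : ℝ := (n : ℝ) with hx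
  have hx0 : 0 < x := by linarith
  set y : ℝ := x ^ ((1 : ℝ) / (5000 * (d + 1))) with hy
  have hlog1 : 1 ≤ Real.log x := (le_max_left _ _).trans ((le_max_left _ _).trans g1)
  have hypow : y ^ (d + 1) = x ^ ((1 : ℝ) / 5000) := by
    rw [hy, ← Real.rpow_natCast, ← Real.rpow_mul hx0.le]
    congr 1
    push_cast
    have : ((d : ℝ) + 1) ≠ 0 := by positivity
    field_simp
  have hxy : Real.log x ≤ y := by
    rw [← hypow] at hd
    exact le_of_pow_le_pow_left₀ (by omega) (by positivity) hd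
  have hy1 : 1 ≤ y := hlog1.trans hxy
  have hlp : 4 * (p : ℝ) ^ 2 ≤ y := ((le_max_right _ _).trans ((le_max_left _ _).trans g1)).trans hxy
  have hY : Real.log (2 * C) + 2 + Real.log 2 < y * Real.log (3 / 2) := by
    have := ((le_max_right _ _).trans g1).trans hxy
    rw [div_le_iff₀ hl32] at this
    linarith
  set M : ℕ := Nat.sqrt (n / K) with hM
  have hsq : x ^ ((1 : ℝ) / 2) = Real.sqrt x := (Real.sqrt_eq_rpow x).symm
  rw [hsq] at g4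
  have hK1 : (1 : ℝ) ≤ K := by exact_mod_cast hK
  have hMb := Mbound hK n
  have hg4 : (M₀ : ℝ) + 2 ≤ Real.sqrt x / (2 * K) := by
    rw [le_div_iff₀ (by positivity)]
    linarith
  have hMM : Real.sqrt x / (2 * K) ≤ (M : ℝ) := by
    have h7 : (0 : ℝ) ≤ M₀ := Nat.cast_nonneg _
    have h8 : Real.sqrt x / K - 1 ≤ (M : ℝ) := hMb
    have h9 : Real.sqrt x / K = 2 * (Real.sqrt x / (2 * K)) := by
      field_simp
    linarith
  have hM2 : (M₀ : ℝ) + 2 ≤ M := hg4.trans hMM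
  have hM2' : M₀ + 2 ≤ M := by exact_mod_cast hM2
  have hMx : (M : ℝ) ≤ x := by
    have hs : M * M ≤ n / K := Nat.sqrt_le _
    have : M ≤ n := by nlinarith [Nat.div_le_self n K]
    rw [hx]
    exact_mod_cast this
  set R : ℕ := ⌊(M : ℝ) ^ ((1 : ℝ) / 400)⌋₊ with hR
  have hMr0 : (0 : ℝ) ≤ M := Nat.cast_nonneg _
  have hRM : R ^ 400 ≤ M := by
    have h8 : (R : ℝ) ≤ (M : ℝ) ^ ((1 : ℝ) / 400) := Nat.floor_le (Real.rpow_nonneg hMr0 _)
    have h9 : (R : ℝ) ^ 400 ≤ M := by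
      calc (R : ℝ) ^ 400 ≤ ((M : ℝ) ^ ((1 : ℝ) / 400)) ^ 400 := pow_le_pow_left₀ (Nat.cast_nonneg _) h8 400
        _ = M := by
          rw [← Real.rpow_natCast, ← Real.rpow_mul hMr0]
          norm_num
    exact_mod_cast h9
  have hRx : x ^ ((1 : ℝ) / 800) / (2 * K) - 1 ≤ R := by
    have h8 : (M : ℝ) ^ ((1 : ℝ) / 400) < R + 1 := Nat.lt_floor_add_one _
    have h9 : x ^ ((1 : ℝ) / 800) / (2 * K) ≤ (M : ℝ) ^ ((1 : ℝ) / 400) := by
      have h10 : (x ^ ((1 : ℝ) / 800) / (2 * K)) = ((x ^ ((1 : ℝ) / 800) / (2 * K)) ^ 400) ^ ((1 : ℝ) / 400) := by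
        rw [← Real.rpow_natCast, ← Real.rpow_mul (by positivity)]
        norm_num
      rw [h10]
      refine Real.rpow_le_rpow (by positivity) ?_ (by norm_num)
      refine le_trans ?_ hMM
      rw [div_pow, ← Real.rpow_natCast, ← Real.rpow_mul hx0.le, show (1 : ℝ) / 800 * ((400 : ℕ) : ℝ) = 1 / 2 by norm_num, hsq]
      have h11 : 2 * (K : ℝ) ≤ (2 * K) ^ 400 := le_self_pow₀ (by linarith) (by norm_num)
      exact div_le_div_of_nonneg_left (Real.sqrt_nonneg _) (by positivity) h11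
    linarith
  have h800 : x ^ ((1 : ℝ) / 800) = x ^ ((1 : ℝ) / 1000) * x ^ ((1 : ℝ) / 4000) := by
    rw [← Real.rpow_add hx0]; norm_num
  have h1000 : 1 ≤ x ^ ((1 : ℝ) / 1000) := Real.one_le_rpow hx1 (by norm_num)
  have hC0 : (0 : ℝ) ≤ C := Nat.cast_nonneg _
  have hbig : 2 * (C : ℝ) * x ^ ((1 : ℝ) / 1000) + 23 ≤ x ^ ((1 : ℝ) / 800) / (2 * K) := by
    rw [h800, le_div_iff₀ (by positivity)]
    have h12 : (2 * (C : ℝ) * x ^ ((1 : ℝ) / 1000) + 23) ≤ (4 * C + 24) * x ^ ((1 : ℝ) / 1000) := by nlinarith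
    have h13 : (2 * (C : ℝ) * x ^ ((1 : ℝ) / 1000) + 23) * (2 * K) ≤
        ((4 * C + 24) * x ^ ((1 : ℝ) / 1000)) * (2 * K) := mul_le_mul_of_nonneg_right h12 (by positivity)
    have h14 : x ^ ((1 : ℝ) / 1000) * (2 * (K : ℝ) * (4 * C + 24)) ≤ x ^ ((1 : ℝ) / 1000) * x ^ ((1 : ℝ) / 4000) :=
      mul_le_mul_of_nonneg_left g2 (by linarith)
    linarith
  set L : ℕ := (R - 8) / 2 with hL
  have hR8 : 8 ≤ R := by
    have h15 : 0 ≤ 2 * (C : ℝ) * x ^ ((1 : ℝ) / 1000) := by positivity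
    have : (8 : ℝ) ≤ R := by linarith
    exact_mod_cast this
  have hLR : 2 * L + 8 ≤ R := by omega
  have hLr : (R : ℝ) ≤ 2 * L + 9 := by
    have : R ≤ 2 * L + 9 := by omega
    exact_mod_cast this
  set t : ℕ := ⌈y ^ 2⌉₊ with ht
  have ht1 : (t : ℝ) ≤ y ^ 2 + 1 := (Nat.ceil_lt_add_one (by positivity)).le
  have ht2 : y ^ 2 ≤ t := Nat.le_ceil _
  have ht3 : 1 ≤ t := by
    have : (1 : ℝ) ≤ t := by nlinarith
    exact_mod_cast this
  have hlen : C * (p * t) ^ (d + 2) ≤ L := by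
    have h := lens (C := C) hp hx1 hy hy1 hlp ht1
    have h' : (C : ℝ) * (p * t) ^ (d + 2) ≤ L := by linarith
    exact_mod_cast h'
  set N : ℕ := ⌈(2 : ℝ) ^ y⌉₊ with hN
  have hN1 : (N : ℝ) ≤ 2 ^ y + 1 := (Nat.ceil_lt_add_one (by positivity)).le
  exact ⟨by omega, by omega, R, L, t, N, hRM, hLR, ht3, hlen, Nat.le_ceil _, expo hC hx1 hy1 hxy hY hN1 hMx ht2⟩

end ACpSep
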