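import Pool.Agent.H65.AF.Main
import Pool.Agent.H88.AS.Low
import Pool.Agent.H88.AS.Up2
import Pool.Agent.H92.AS.Sound

/-!
helper88 (project MP_28250c_AS): the separation.
-/

set_option autoImplicit false

namespace ACpSep

open ACpFrege ACpB

theorem sep_main : StatementSep := by
  intro q hq
  obtain ⟨c, hc⟩ := stUp q hq
  obtain ⟨c', hc'⟩ := FQ_ok q hq
  have hlow : StLow := stLow_of fun Q hQ _ => partC Q hQ
  refine ⟨FQ q, c' + c + 10, ?_, ⟨SysQ q, ACpSep.sound q hq, ?_⟩, hlow q hq⟩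
  · intro n
    obtain ⟨h1, h2, h3⟩ := hc' n
    exact ⟨h1, h2.trans (Nat.pow_le_pow_right (by omega) (by omega)), h3⟩
  · intro n
    by_cases h : 1 ≤ Nat.sqrt (n / (4 * QQ q))
    · have hF : FQ q n = ASM (Nat.sqrt (n / (4 * QQ q))) (QQ q) := by
        unfold FQ
        rw [if_pos h]
      obtain ⟨π, h1, h2⟩ := hc _ h
      refine ⟨π, by rw [hF]; exact h1, h2.trans ?_⟩
      have hMn : Nat.sqrt (n / (4 * QQ q)) ≤ n := by
        have hs : Nat.sqrt (n / (4 * QQ q)) * Nat.sqrt (n / (4 * QQ q)) ≤ n / (4 * QQ q) := Nat.sqrt_le _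
        nlinarith [Nat.div_le_self n (4 * QQ q)]
      have h3 : Nat.sqrt (n / (4 * QQ q)) ^ 10 ≤ (n + 2) ^ 10 := Nat.pow_le_pow_left (by omega) 10
      have h4 : c ≤ (n + 2) ^ (c' + c) :=
        (Nat.lt_two_pow_self.le.trans (Nat.pow_le_pow_right (by norm_num) (by omega : c ≤ c' + c))).trans
          (Nat.pow_le_pow_left (by omega) _)
      rw [pow_add]
      exact Nat.mul_le_mul h4 h3
    · have hF : FQ q n = [[]] := by
        unfold FQ
        rw [if_neg h]
      have h0 : Dv (SysQ q) (FQ q n) 2 1 1 (insert (cnL true []) ∅) := by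
        refine Dv.zero.step (Or.inl ⟨[], by rw [hF]; simp, rfl⟩) ?_ ?_
        · unfold Fm.depth cnL
          rw [Fm.dep]
          simp
        · rw [size_cnL, List.map_nil, List.sum_nil]
          norm_num
      obtain ⟨π, h1, h2⟩ := h0.refutes (Set.mem_insert _ _)
      refine ⟨π, h1, h2.trans ?_⟩
      exact Nat.one_le_pow _ _ (by omega)

end ACpSep
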