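import Pool.Agent.H88.AS.Inst

/-!
helper88 (project MP_28250c_AS): the refutation of `ASM M Q` with `MOD_q` connectives.
-/

set_option autoImplicit false

namespace ACpSep

open ACpFrege ACpB

section mem

variable {M Q : ℕ}

theorem mem_allV (ν : Vr M) : ν ∈ allV M := by
  unfold allV
  rw [List.mem_append]
  rcases ν with ⟨u, v⟩ | ⟨v, t⟩
  · left
    rw [List.mem_flatMap]
    exact ⟨u, List.mem_finRange u, List.mem_map.2 ⟨v, List.mem_finRange v, rfl⟩⟩
  · right
    rw [List.mem_flatMap]
    exact ⟨v, List.mem_finRange v, List.mem_map.2 ⟨t, List.mem_finRange t, rfl⟩⟩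

theorem memOne (ν : Vr M) : ∀ C ∈ oneC Q ν, C ∈ ASM M Q := by
  intro C hC
  unfold ASM
  simp only [List.mem_append, List.mem_flatMap]
  exact Or.inl (Or.inl (Or.inl ⟨ν, mem_allV ν, hC⟩))

theorem memC0 (v : Fin M) : ∀ C ∈ cstC Q (.inl (v, v)) 0, C ∈ ASM M Q := by
  intro C hC
  unfold ASM
  simp only [List.mem_append, List.mem_flatMap]
  exact Or.inl (Or.inl (Or.inr ⟨v, List.mem_finRange v, Or.inl (Or.inl hC)⟩))

theorem memC1 (v : Fin M) : ∀ C ∈ cstC Q (.inr (v, 0)) 0, C ∈ ASM M Q := by
  intro C hC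
  unfold ASM
  simp only [List.mem_append, List.mem_flatMap]
  exact Or.inl (Or.inl (Or.inr ⟨v, List.mem_finRange v, Or.inl (Or.inr hC)⟩))

theorem memC2 (v : Fin M) : ∀ C ∈ cstC Q (.inr (v, Fin.last M)) (cM Q v), C ∈ ASM M Q := by
  intro C hC
  unfold ASM
  simp only [List.mem_append, List.mem_flatMap]
  exact Or.inl (Or.inl (Or.inr ⟨v, List.mem_finRange v, Or.inr hC⟩))

theorem memAddS (u v : Fin M) : ∀ C ∈ addC Q (.inl (u, v)) (.inl (v, u)) (.inr (u, 0)), C ∈ ASM M Q := by
  intro C hC
  unfold ASM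
  simp only [List.mem_append, List.mem_flatMap]
  exact Or.inl (Or.inr ⟨u, List.mem_finRange u, v, List.mem_finRange v, hC⟩)

theorem memAddP (v t : Fin M) : ∀ C ∈ addC Q (.inr (v, t.castSucc)) (.inl (v, t)) (.inr (v, t.succ)), C ∈ ASM M Q := by
  intro C hC
  unfold ASM
  simp only [List.mem_append, List.mem_flatMap]
  exact Or.inr ⟨v, List.mem_finRange v, t, List.mem_finRange t, hC⟩

end mem

section up

variable {M q : ℕ}

/-- The formulas of the clauses. -/
def T0 (q M Q : ℕ) : Set (Fm q) := {A | ∃ C ∈ ASM M Q, A = clauseFm C}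

theorem dv_clauses {S : List (Rule q)} {F : CNF} {d B : ℕ} (hd : 2 ≤ d) (hB : ∀ C ∈ F, 1 + 2 * C.length ≤ B) :
    Dv S F d B F.length {A | ∃ C ∈ F, A = clauseFm C} := by
  have h : ∀ l : List (List Lit), (∀ C ∈ l, C ∈ F) → Dv S F d B l.length {A | ∃ C ∈ l, A = clauseFm C} := by
    intro l
    induction l with
    | nil =>
      intro _
      refine Dv.zero.mono (by simp) ?_
      rintro A ⟨C, hC, _⟩
      exact absurd hC (by simp)
    | cons a l ih =>
      intro hl
      have h1 := ih fun C hC => hl C (List.mem_cons_of_mem _ hC)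
      have h2 := h1.step (A := clauseFm a) (Or.inl ⟨a, hl a List.mem_cons_self, rfl⟩) ((dep_clauseFm a).trans hd)
        ((size_clauseFm a).trans (hB a (hl a List.mem_cons_self)))
      refine h2.mono (by simp) ?_
      rintro A ⟨C, hC, rfl⟩
      rcases List.mem_cons.1 hC with rfl | hC
      · exact Set.mem_insert _ _
      · exact Set.mem_insert_of_mem _ ⟨C, hC, rfl⟩
  exact h F fun C hC => hC

theorem prem_cl {Q : ℕ} {T : Set (Fm q)} (hT : T0 q M Q ⊆ T) (N : ℕ → Vr M) (G : ℕ → List (Fm q)) (L : CNF)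
    (hL : ∀ C ∈ L.map (fun C => C.map fun l => (sg Q N l.1, l.2)), C ∈ ASM M Q) :
    ∀ P ∈ L.map (clS (q := q)), ∀ A ∈ P.inst (fun i => .var (sg Q N i)) G, A ∈ T := by
  intro P hP A hA
  rw [List.mem_map] at hP
  obtain ⟨C, hC, rfl⟩ := hP
  rw [inst_clS, List.mem_singleton] at hA
  subst hA
  exact hT ⟨_, hL _ (List.mem_map.2 ⟨C, hC, rfl⟩), rfl⟩

/-- The list for the partial row sum. -/
def XL (q Q : ℕ) {M : ℕ} (v : Fin M) (t : ℕ) : List (Fm q) :=
  ((List.finRange M).take t).flatMap fun u => DV 1 Q (.inl (v, u) : Vr M)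

theorem XL_succ {Q : ℕ} (v : Fin M) {t : ℕ} (ht : t < M) :
    XL q Q v (t + 1) = XL q Q v t ++ DV 1 Q (.inl (v, ⟨t, ht⟩) : Vr M) := by
  unfold XL
  have h1 : (List.finRange M).take (t + 1) = (List.finRange M).take t ++ [⟨t, ht⟩] := by
    rw [List.take_add_one, List.getElem?_eq_getElem (by simpa using ht)]
    simp
  rw [h1, List.flatMap_append]
  simp

/-- The line: partial row sum = `y_(v,t)`. -/
def Pl (q Q : ℕ) {M : ℕ} (v : Fin M) (t : Fin (M + 1)) : Fm q := mdL 0 (XL q Q v t.val ++ DV (q - 1) Q (.inr (v, t) : Vr M))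

variable {Q : ℕ} [NeZero Q] {T : Set (Fm q)}

theorem st_start (hQ : Q = QQ q) (hT : T0 q M Q ⊆ T) (v : Fin M) : StepT (SysQ q) (ASM M Q) T (Pl q Q v 0) := by
  subst hQ
  refine Or.inr ⟨rStart q, by simp [SysQ], fun i => .var (sg (QQ q) (fun _ => (.inr (v, 0) : Vr M)) i), fun _ => [], ?_, ?_⟩
  · unfold rStart
    rw [inst_mdS, Dm_inst]
    unfold Pl XL
    simp
  · refine prem_cl hT _ _ _ ?_
    rw [List.map_append, one_map, cst_map]
    intro C hC
    rcases List.mem_append.1 hC with h | h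
    · exact memOne _ C h
    · exact memC1 _ C h

theorem st_step (hQ : Q = QQ q) (hT : T0 q M Q ⊆ T) (v t : Fin M) (h : Pl q Q v t.castSucc ∈ T) :
    StepT (SysQ q) (ASM M Q) T (Pl q Q v t.succ) := by
  subst hQ
  refine Or.inr ⟨rStep q, by simp [SysQ], fun i => .var (sg (QQ q) (fun k => if k = 0 then (.inr (v, t.castSucc) : Vr M) else
    if k = 1 then .inl (v, t) else .inr (v, t.succ)) i), fun _ => XL q (QQ q) v t.val, ?_, ?_⟩
  · unfold rStep
    rw [inst_mdS, List.flatMap_cons, List.flatMap_append, Dm_inst, Dm_inst, Sch.inst]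
    unfold Pl
    rw [Fin.val_succ, XL_succ v t.2]
    simp
  · intro P hP
    unfold rStep at hP
    rcases List.mem_cons.1 hP with rfl | hP
    · intro A hA
      rw [inst_mdS, List.flatMap_cons, Dm_inst, Sch.inst, List.mem_singleton] at hA
      rw [hA]
      exact h
    · refine prem_cl hT _ _ _ ?_ P hP
      rw [List.map_append, List.map_append, List.map_append, one_map, one_map, one_map, add_map]
      intro C hC
      simp only [List.mem_append] at hC
      rcases hC with ((hC | hC) | hC) | hC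
      · exact memOne _ C hC
      · exact memOne _ C hC
      · exact memOne _ C hC
      · exact memAddP v t C hC

/-- The line: row sum = `c`. -/
def Rw (q Q : ℕ) {M : ℕ} (v : Fin M) : Fm q := mdL (if v.val = 0 then 1 else 0) (XL q Q v M)

theorem st_end (hQ : Q = QQ q) (hT : T0 q M Q ⊆ T) (v : Fin M) (h : Pl q Q v (Fin.last M) ∈ T) :
    StepT (SysQ q) (ASM M Q) T (Rw q Q v) := by
  subst hQ
  refine Or.inr ⟨rEnd q (if v.val = 0 then 1 else 0), ?_, fun i => .var (sg (QQ q) (fun _ => (.inr (v, Fin.last M) : Vr M)) i),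
    fun _ => XL q (QQ q) v M, ?_, ?_⟩
  · by_cases h0 : v.val = 0 <;> simp [SysQ, h0]
  · unfold rEnd
    rw [inst_mdS]
    unfold Rw
    have h1 : (((if v.val = 0 then 1 else 0 : ℕ) : ℕ) : ZMod q) = if v.val = 0 then 1 else 0 := by
      split_ifs <;> simp
    rw [h1]
    simp [Sch.inst]
  · intro P hP
    unfold rEnd at hP
    rcases List.mem_cons.1 hP with rfl | hP
    · intro A hA
      rw [inst_mdS, List.flatMap_cons, Dm_inst, Sch.inst, List.mem_singleton] at hA
      rw [hA]
      exact h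
    · refine prem_cl hT _ _ _ ?_ P hP
      rw [List.map_append, one_map, cst_map]
      intro C hC
      rcases List.mem_append.1 hC with h | h
      · exact memOne _ C h
      · refine memC2 v C ?_
        have h1 : (((if v.val = 0 then 1 else 0 : ℕ) : ℕ) : ZMod (QQ q)) = cM (QQ q) v := by
          unfold cM
          split_ifs <;> simp
        rw [h1] at h
        exact h

omit [NeZero Q] in
theorem st_sum (l l' : List (Fm q)) (h1 : mdL 1 l ∈ T) (h2 : mdL 0 l' ∈ T) :
    StepT (SysQ q) (ASM M Q) T (mdL 1 (l ++ l')) := by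
  refine Or.inr ⟨rSum q 1 0, by simp [SysQ], fun _ => .var 0, fun j => if j = 0 then l else l', ?_, ?_⟩
  · unfold rSum
    rw [inst_mdS]
    simp [Sch.inst]
  · intro P hP A hA
    unfold rSum at hP
    simp only [List.mem_cons, List.not_mem_nil, or_false] at hP
    rcases hP with rfl | rfl
    · rw [inst_mdS, List.mem_singleton] at hA
      rw [hA]
      simpa [Sch.inst] using h1
    · rw [inst_mdS, List.mem_singleton] at hA
      rw [hA]
      simpa [Sch.inst] using h2

theorem st_pair (hQ : Q = QQ q) (hT : T0 q M Q ⊆ T) (u v : Fin M) (l l' : List (Fm q))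
    (h : mdL 1 (DV 1 Q (.inl (u, v) : Vr M) ++ (l ++ (DV 1 Q (.inl (v, u) : Vr M) ++ l'))) ∈ T) :
    StepT (SysQ q) (ASM M Q) T (mdL 1 (l ++ l')) := by
  subst hQ
  refine Or.inr ⟨rPair q, by simp [SysQ], fun i => .var (sg (QQ q) (fun k => if k = 0 then (.inl (u, v) : Vr M) else
    if k = 1 then .inl (v, u) else .inr (u, 0)) i), fun j => if j = 0 then l else l', ?_, ?_⟩
  · unfold rPair
    rw [inst_mdS]
    simp [Sch.inst]
  · intro P hP
    unfold rPair at hP
    rcases List.mem_cons.1 hP with rfl | hP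
    · intro A hA
      rw [inst_mdS, List.flatMap_append, List.flatMap_cons, List.flatMap_append, Dm_inst, Dm_inst, List.mem_singleton] at hA
      rw [hA]
      simpa [Sch.inst] using h
    · refine prem_cl hT _ _ _ ?_ P hP
      rw [List.map_append, List.map_append, List.map_append, List.map_append, one_map, one_map, one_map, add_map, cst_map]
      intro C hC
      simp only [List.mem_append] at hC
      rcases hC with (((hC | hC) | hC) | hC) | hC
      · exact memOne _ C hC
      · exact memOne _ C hC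
      · exact memOne _ C hC
      · exact memAddS u v C hC
      · exact memC1 u C hC

theorem st_diag (hQ : Q = QQ q) (hT : T0 q M Q ⊆ T) (u : Fin M) (l : List (Fm q))
    (h : mdL 1 (DV 1 Q (.inl (u, u) : Vr M) ++ l) ∈ T) :
    StepT (SysQ q) (ASM M Q) T (mdL 1 l) := by
  subst hQ
  refine Or.inr ⟨rDiag q, by simp [SysQ], fun i => .var (sg (QQ q) (fun _ => (.inl (u, u) : Vr M)) i), fun _ => l, ?_, ?_⟩
  · unfold rDiag
    rw [inst_mdS]
    simp [Sch.inst]
  · intro P hP
    unfold rDiag at hP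
    rcases List.mem_cons.1 hP with rfl | hP
    · intro A hA
      rw [inst_mdS, List.flatMap_append, Dm_inst, List.mem_singleton] at hA
      rw [hA]
      simpa [Sch.inst] using h
    · refine prem_cl hT _ _ _ ?_ P hP
      rw [List.map_append, one_map, cst_map]
      intro C hC
      rcases List.mem_append.1 hC with h | h
      · exact memOne _ C h
      · exact memC0 _ C h

omit [NeZero Q] in
theorem st_bot (h : mdL 1 [] ∈ T) : StepT (SysQ q) (ASM M Q) T (cnL true []) := by
  refine Or.inr ⟨rBot q, by simp [SysQ], fun _ => .var 0, fun _ => [], ?_, ?_⟩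
  · unfold rBot
    rw [Sch.inst]
    simp
  · intro P hP A hA
    unfold rBot at hP
    simp only [List.mem_cons, List.not_mem_nil, or_false] at hP
    subst hP
    rw [inst_mdS, List.mem_singleton] at hA
    rw [hA]
    simpa using h

end up

end ACpSep
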